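import Mathlib

set_option linter.unusedSectionVars false

open scoped InnerProductSpace OnePoint
open Finset OnePoint

namespace Q22.SA

variable {K : Type*} [Field K] [Fintype K] [DecidableEq K]
variable {H : Type*} [NormedAddCommGroup H] [InnerProductSpace ℂ H]

/-- Systems of vectors indexed by pairs of points of the projective line over `K`. -/
structure Sys (w : OnePoint K → OnePoint K → H) : Prop where
  inv : ∀ (g : GL (Fin 2) K) (a b c d : OnePoint K),
    ⟪w (g • a) (g • b), w (g • c) (g • d)⟫_ℂ = ⟪w a b, w c d⟫_ℂ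
  anti : ∀ a b, w b a = - w a b
  sum : ∑ a : K, w (a : OnePoint K) ∞ = 0

/-- Moebius transformations. -/
noncomputable def mob (a b c d : K) (h : a * d - b * c ≠ 0) : GL (Fin 2) K :=
  Matrix.GeneralLinearGroup.mkOfDetNeZero !![a, b; c, d] (by simpa [Matrix.det_fin_two] using h)

lemma mob_infty (a b c d : K) (h : a * d - b * c ≠ 0) :
    mob a b c d h • (∞ : OnePoint K) = if c = 0 then ∞ else ((a / c : K) : OnePoint K) := by
  rw [smul_infty_eq_ite]
  simp [mob, Matrix.GeneralLinearGroup.mkOfDetNeZero]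

lemma mob_coe (a b c d : K) (h : a * d - b * c ≠ 0) (x : K) :
    mob a b c d h • (x : OnePoint K) =
      if c * x + d = 0 then ∞ else (((a * x + b) / (c * x + d) : K) : OnePoint K) := by
  rw [smul_some_eq_ite]
  simp [mob, Matrix.GeneralLinearGroup.mkOfDetNeZero]

/-- the common squared norm -/
noncomputable def kap (w : OnePoint K → OnePoint K → H) : ℝ := ‖w ((0 : K) : OnePoint K) ∞‖ ^ 2

/-- the common inner product of two pairs with one common point -/
noncomputable def f0 (w : OnePoint K → OnePoint K → H) : ℂ :=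
  ⟪w ((0 : K) : OnePoint K) ∞, w ((1 : K) : OnePoint K) ∞⟫_ℂ

/-- the inner products of the disjoint pairs -/
noncomputable def FF (w : OnePoint K → OnePoint K → H) (t : K) : ℂ :=
  ⟪w ((0 : K) : OnePoint K) ∞, w ((1 : K) : OnePoint K) ((t : K) : OnePoint K)⟫_ℂ

variable {w : OnePoint K → OnePoint K → H}

lemma kap_nonneg : 0 ≤ kap w := by unfold kap; positivity

lemma kap_coe : (kap w : ℂ) = ⟪w ((0 : K) : OnePoint K) ∞, w ((0 : K) : OnePoint K) ∞⟫_ℂ := by
  rw [inner_self_eq_norm_sq_to_K, kap]; norm_cast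

lemma Sys.self (hw : Sys w) (a b : OnePoint K) (h : a ≠ b) :
    ⟪w a b, w a b⟫_ℂ = (kap w : ℂ) := by
  rw [kap_coe]
  induction a using OnePoint.rec with
  | infty =>
    induction b using OnePoint.rec with
    | infty => exact absurd rfl h
    | coe b =>
      rw [hw.anti b ∞, inner_neg_neg]
      have := hw.inv (mob 1 b 0 1 (by simp)) ((0 : K) : OnePoint K) ∞ ((0 : K) : OnePoint K) ∞
      simpa [mob_infty, mob_coe] using this
  | coe a =>
    induction b using OnePoint.rec with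
    | infty =>
      have := hw.inv (mob 1 a 0 1 (by simp)) ((0 : K) : OnePoint K) ∞ ((0 : K) : OnePoint K) ∞
      simpa [mob_infty, mob_coe] using this
    | coe b =>
      have hab : b - a ≠ 0 := by
        intro h'; apply h; rw [sub_eq_zero.1 h']
      have := hw.inv (mob b a 1 1 (by simpa using hab)) ((0 : K) : OnePoint K) ∞
        ((0 : K) : OnePoint K) ∞
      simpa [mob_infty, mob_coe] using this

lemma Sys.norm_eq (hw : Sys w) (a b : OnePoint K) (h : a ≠ b) : ‖w a b‖ ^ 2 = kap w := by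
  have := hw.self a b h
  rw [inner_self_eq_norm_sq_to_K] at this
  apply Complex.ofReal_injective
  rw [← this]
  push_cast
  rfl

lemma Sys.norm_le (hw : Sys w) (a b c d : OnePoint K) (h : a ≠ b) (h' : c ≠ d) :
    ‖⟪w a b, w c d⟫_ℂ‖ ≤ kap w := by
  refine (norm_inner_le_norm _ _).trans ?_
  have h1 := hw.norm_eq a b h
  have h2 := hw.norm_eq c d h'
  nlinarith [sq_nonneg (‖w a b‖ - ‖w c d‖)]

lemma Sys.star (hw : Sys w) (a b : K) (h : a ≠ b) :
    ⟪w (a : OnePoint K) ∞, w (b : OnePoint K) ∞⟫_ℂ = f0 w := by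
  have hab : b - a ≠ 0 := fun h' => h (sub_eq_zero.1 h').symm
  have := hw.inv (mob (b - a) a 0 1 (by simpa using hab)) ((0 : K) : OnePoint K) ∞
    ((1 : K) : OnePoint K) ∞
  simpa [mob_infty, mob_coe, f0] using this

lemma Sys.f0_eq (hw : Sys w) : (Fintype.card K - 1 : ℂ) * f0 w = - (kap w : ℂ) := by
  have h1 : ⟪w ((0 : K) : OnePoint K) ∞, ∑ a : K, w (a : OnePoint K) ∞⟫_ℂ = 0 := by
    rw [hw.sum, inner_zero_right]
  rw [inner_sum, ← Finset.add_sum_erase _ _ (Finset.mem_univ (0 : K)), hw.self _ _ (by simp)] at h1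
  rw [Finset.sum_congr rfl (fun x hx => hw.star 0 x (by
    have := (Finset.mem_erase.1 hx).1; exact fun h => this h.symm))] at h1
  rw [Finset.sum_const, Finset.card_erase_of_mem (Finset.mem_univ _), Finset.card_univ,
    nsmul_eq_mul, Nat.cast_sub Fintype.card_pos] at h1
  push_cast at h1
  linear_combination h1

lemma card_two : 2 ≤ Fintype.card K := Fintype.one_lt_card

lemma Sys.f0_norm (hw : Sys w) : (Fintype.card K - 1 : ℝ) * ‖f0 w‖ = kap w := by
  have h := congrArg norm hw.f0_eq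
  rw [norm_mul, norm_neg] at h
  have h1 : ‖(Fintype.card K - 1 : ℂ)‖ = (Fintype.card K - 1 : ℝ) := by
    have h2 : (Fintype.card K - 1 : ℂ) = ((Fintype.card K - 1 : ℝ) : ℂ) := by push_cast; ring
    rw [h2, Complex.norm_real, Real.norm_eq_abs, abs_of_nonneg]
    have : (2 : ℝ) ≤ Fintype.card K := by exact_mod_cast card_two (K := K)
    linarith
  rw [h1] at h
  rw [h, Complex.norm_real, Real.norm_eq_abs, abs_of_nonneg kap_nonneg]

/-- Bessel inequality for the star at `∞`. -/
lemma Sys.bessel (hw : Sys w) (x : H) :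
    ∑ a : K, ‖⟪w (a : OnePoint K) ∞, x⟫_ℂ‖ ^ 2 ≤ 2 * kap w * ‖x‖ ^ 2 := by
  set S := ∑ a : K, ‖⟪w (a : OnePoint K) ∞, x⟫_ℂ‖ ^ 2 with hS
  set y : H := ∑ a : K, ⟪w (a : OnePoint K) ∞, x⟫_ℂ • w (a : OnePoint K) ∞ with hy
  have hsum : ∑ a : K, ⟪w (a : OnePoint K) ∞, x⟫_ℂ = 0 := by
    rw [← sum_inner, hw.sum, inner_zero_left]
  have h1 : ∀ a : K, ⟪w (a : OnePoint K) ∞, y⟫_ℂ =
      ((kap w : ℂ) - f0 w) * ⟪w (a : OnePoint K) ∞, x⟫_ℂ := by
    intro a
    rw [hy, inner_sum]
    have : ∀ b : K, ⟪w (a : OnePoint K) ∞, ⟪w (b : OnePoint K) ∞, x⟫_ℂ • w (b : OnePoint K) ∞⟫_ℂ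
        = f0 w * ⟪w (b : OnePoint K) ∞, x⟫_ℂ +
          if b = a then ((kap w : ℂ) - f0 w) * ⟪w (a : OnePoint K) ∞, x⟫_ℂ else 0 := by
      intro b
      rw [inner_smul_right]
      split_ifs with h
      · subst h
        rw [hw.self _ _ (by simp)]; ring
      · rw [hw.star a b (fun h' => h h'.symm)]; ring
    rw [Finset.sum_congr rfl (fun b _ => this b), Finset.sum_add_distrib, ← Finset.mul_sum, hsum]
    simp
  have hxy : ⟪x, y⟫_ℂ = (S : ℂ) := by
    rw [hy, inner_sum, hS]
    push_cast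
    refine Finset.sum_congr rfl fun a _ => ?_
    rw [inner_smul_right, ← inner_conj_symm x, Complex.mul_conj, Complex.normSq_eq_norm_sq]
    push_cast; rfl
  have hyy : ⟪y, y⟫_ℂ = ((kap w : ℂ) - f0 w) * S := by
    conv_lhs => rw [hy]
    rw [sum_inner]
    have : ∀ a : K, ⟪⟪w (a : OnePoint K) ∞, x⟫_ℂ • w (a : OnePoint K) ∞, y⟫_ℂ =
        ((kap w : ℂ) - f0 w) * ((‖⟪w (a : OnePoint K) ∞, x⟫_ℂ‖ ^ 2 : ℝ) : ℂ) := by
      intro a
      rw [inner_smul_left, h1 a, mul_left_comm, ← Complex.normSq_eq_norm_sq,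
        Complex.normSq_eq_conj_mul_self]
    rw [Finset.sum_congr rfl (fun a _ => this a), ← Finset.mul_sum, hS]
    push_cast; rfl
  have hSn : 0 ≤ S := by rw [hS]; positivity
  have hk : ‖(kap w : ℂ) - f0 w‖ ≤ 2 * kap w := by
    refine (norm_sub_le _ _).trans ?_
    rw [Complex.norm_real, Real.norm_eq_abs, abs_of_nonneg kap_nonneg]
    have := hw.f0_norm
    have h2 : (2 : ℝ) ≤ Fintype.card K := by exact_mod_cast card_two (K := K)
    nlinarith [norm_nonneg (f0 w)]
  have hy2 : ‖y‖ ^ 2 ≤ 2 * kap w * S := by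
    have h3 : (‖y‖ ^ 2 : ℝ) = ‖⟪y, y⟫_ℂ‖ := by
      rw [inner_self_eq_norm_sq_to_K]; simp
    rw [h3, hyy, norm_mul, Complex.norm_real, Real.norm_eq_abs, abs_of_nonneg hSn]
    gcongr
  have hcs : S ≤ ‖x‖ * ‖y‖ := by
    have := norm_inner_le_norm (𝕜 := ℂ) x y
    rw [hxy, Complex.norm_real, Real.norm_eq_abs, abs_of_nonneg hSn] at this
    exact this
  have hcs2 : S ^ 2 ≤ ‖x‖ ^ 2 * ‖y‖ ^ 2 := by
    rw [← mul_pow]; gcongr
  rcases hSn.eq_or_lt with h0 | h0
  · rw [← h0]
    have := kap_nonneg (w := w)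
    positivity
  · have : S * S ≤ (2 * kap w * ‖x‖ ^ 2) * S := by
      nlinarith [sq_nonneg ‖x‖]
    exact le_of_mul_le_mul_right this h0

/-- square sum of the inner products -/
lemma Sys.sqsum (hw : Sys w) :
    ∑ t ∈ univ.filter (fun t : K => t ≠ 0 ∧ t ≠ 1), ‖FF w t‖ ^ 2 ≤ 2 * kap w ^ 2 := by
  have h := hw.bessel (w ((0 : K) : OnePoint K) ((1 : K) : OnePoint K))
  rw [hw.norm_eq _ _ (by simp)] at h
  have h2 : ∑ t ∈ univ.filter (fun t : K => t ≠ 0 ∧ t ≠ 1), ‖FF w t‖ ^ 2 =
      ∑ a ∈ univ.filter (fun t : K => t ≠ 0 ∧ t ≠ 1),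
        ‖⟪w (a : OnePoint K) ∞, w ((0 : K) : OnePoint K) ((1 : K) : OnePoint K)⟫_ℂ‖ ^ 2 := by
    refine Finset.sum_nbij' (fun t => 1 / (1 - t)) (fun a => 1 - 1 / a) ?_ ?_ ?_ ?_ ?_
    · intro t ht
      simp only [mem_filter, mem_univ, true_and] at ht ⊢
      have h1 : (1 : K) - t ≠ 0 := sub_ne_zero.2 (Ne.symm ht.2)
      refine ⟨one_div_ne_zero h1, ?_⟩
      intro h'
      rw [div_eq_one_iff_eq h1] at h'
      apply ht.1
      linear_combination h'
    · intro t ht
      simp only [mem_filter, mem_univ, true_and] at ht ⊢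
      refine ⟨?_, ?_⟩
      · intro h'
        apply ht.2
        have := ht.1
        field_simp at h'
        linear_combination h'
      · intro h'
        have := ht.1
        have h3 : 1 / t = 0 := by linear_combination -h'
        simp [this] at h3
    · intro t ht
      simp only [mem_filter, mem_univ, true_and] at ht
      have h1 : (1 : K) - t ≠ 0 := sub_ne_zero.2 (Ne.symm ht.2)
      field_simp
      ring
    · intro t ht
      simp only [mem_filter, mem_univ, true_and] at ht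
      have := ht.1
      field_simp
      ring
    · intro t ht
      simp only [mem_filter, mem_univ, true_and] at ht
      have h1 : (1 : K) - t ≠ 0 := sub_ne_zero.2 (Ne.symm ht.2)
      have := hw.inv (mob (t - 1) 1 0 1 (by
        simp only [mul_one, mul_zero, sub_zero]; exact sub_ne_zero.2 ht.2))
        ((1 / (1 - t) : K) : OnePoint K) ∞ ((0 : K) : OnePoint K) ((1 : K) : OnePoint K)
      simp only [mob_infty, mob_coe, if_true] at this
      have e1 : ((t - 1) * (1 / (1 - t)) + 1) / (0 * (1 / (1 - t)) + 1) = (0 : K) := by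
        field_simp; ring
      have e2 : ((t - 1) * 0 + 1) / (0 * 0 + 1) = (1 : K) := by ring
      have e3 : ((t - 1) * 1 + 1) / (0 * 1 + 1) = (t : K) := by ring
      rw [e1, e2, e3] at this
      simp only [zero_mul, zero_add, one_ne_zero, if_false] at this
      rw [← this, FF]
  rw [h2]
  refine (Finset.sum_le_sum_of_subset_of_nonneg (Finset.filter_subset _ _) ?_).trans (h.trans ?_)
  · intros; positivity
  · nlinarith

end Q22.SA
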