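import Pool.Agent.Q22.SA.Decay

set_option linter.unusedSectionVars false

open scoped InnerProductSpace OnePoint
open Finset OnePoint

namespace Q22.SA

variable {K : Type*} [Field K] [Fintype K] [DecidableEq K]
variable {H : Type*} [NormedAddCommGroup H] [InnerProductSpace ℂ H]
variable {w : OnePoint K → OnePoint K → H}

lemma Sys.diag (hw : Sys w) (a : OnePoint K) : w a a = 0 := by
  have h := hw.anti a a
  have h2 : (2 : ℂ) • w a a = 0 := by
    rw [two_smul]; nth_rw 1 [h]; simp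
  exact (smul_eq_zero.1 h2).resolve_left two_ne_zero

lemma quad_card (α β γ : K) (hα : α ≠ 0) (s : Finset K)
    (hs : ∀ u ∈ s, α * u ^ 2 + β * u + γ = 0) : s.card ≤ 2 := by
  rcases s.eq_empty_or_nonempty with rfl | ⟨u₀, h₀⟩
  · simp
  · have : s ⊆ {u₀, -β / α - u₀} := by
      intro u hu
      rw [mem_insert, mem_singleton]
      by_cases h : u = u₀
      · exact Or.inl h
      · right
        have h1 := hs u hu
        have h2 := hs u₀ h₀
        have h3 : (u - u₀) * (α * (u + u₀) + β) = 0 := by linear_combination h1 - h2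
        have h4 : α * (u + u₀) + β = 0 := (mul_eq_zero.1 h3).resolve_left (sub_ne_zero.2 h)
        field_simp
        linear_combination h4
    exact (Finset.card_le_card this).trans Finset.card_le_two

/-- the cross ratio of `1, r, u, u r` -/
noncomputable def hh (r u : K) : K := ((u * r - 1) * (u - r)) / (r * (u - 1) ^ 2)

lemma Sys.scaled (hw : Sys w) (r u : K) (hr : r ≠ 0) (hr1 : r ≠ 1) (hu1 : u ≠ 1) (hur : u ≠ r) :
    ⟪w ((1 : K) : OnePoint K) (r : OnePoint K), w (u : OnePoint K) ((u * r : K) : OnePoint K)⟫_ℂ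
      = FF w (hh r u) := by
  have h1 : u - r ≠ 0 := sub_ne_zero.2 hur
  have h2 : u - 1 ≠ 0 := sub_ne_zero.2 hu1
  have h3 : (1 : K) - r ≠ 0 := sub_ne_zero.2 (Ne.symm hr1)
  have := hw.inv (mob (u - r) (-(u - r)) (u - 1) (-(r * (u - 1))) (by
      have : (u - r) * -(r * (u - 1)) - -(u - r) * (u - 1) = (u - r) * (u - 1) * (1 - r) := by ring
      rw [this]; exact mul_ne_zero (mul_ne_zero h1 h2) h3))
      ((1 : K) : OnePoint K) (r : OnePoint K) (u : OnePoint K) ((u * r : K) : OnePoint K)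
  simp only [mob_coe] at this
  have e1 : (u - 1) * 1 + -(r * (u - 1)) ≠ 0 := by
    have : (u - 1) * 1 + -(r * (u - 1)) = (u - 1) * (1 - r) := by ring
    rw [this]; exact mul_ne_zero h2 h3
  have e2 : (u - 1) * r + -(r * (u - 1)) = 0 := by ring
  have e3 : (u - 1) * u + -(r * (u - 1)) ≠ 0 := by
    have : (u - 1) * u + -(r * (u - 1)) = (u - 1) * (u - r) := by ring
    rw [this]; exact mul_ne_zero h2 h1
  have e4 : (u - 1) * (u * r) + -(r * (u - 1)) ≠ 0 := by
    have : (u - 1) * (u * r) + -(r * (u - 1)) = r * (u - 1) ^ 2 := by ring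
    rw [this]; exact mul_ne_zero hr (pow_ne_zero _ h2)
  rw [if_neg e1, if_pos e2, if_neg e3, if_neg e4] at this
  have f1 : ((u - r) * 1 + -(u - r)) / ((u - 1) * 1 + -(r * (u - 1))) = (0 : K) := by
    rw [show (u - r) * 1 + -(u - r) = 0 by ring, zero_div]
  have f3 : ((u - r) * u + -(u - r)) / ((u - 1) * u + -(r * (u - 1))) = (1 : K) := by
    rw [div_eq_one_iff_eq e3]; ring
  have f4 : ((u - r) * (u * r) + -(u - r)) / ((u - 1) * (u * r) + -(r * (u - 1))) = hh r u := by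
    rw [hh, div_eq_div_iff e4 (mul_ne_zero hr (pow_ne_zero _ h2))]; ring
  rw [f1, f3, f4] at this
  rw [← this, FF]

lemma hh_ne_zero (r u : K) (hr : r ≠ 0) (hu1 : u ≠ 1) (hur : u ≠ r) (hur' : u ≠ r⁻¹) :
    hh r u ≠ 0 := by
  unfold hh
  refine div_ne_zero (mul_ne_zero ?_ (sub_ne_zero.2 hur))
    (mul_ne_zero hr (pow_ne_zero _ (sub_ne_zero.2 hu1)))
  intro h
  apply hur'
  field_simp
  linear_combination h

lemma hh_ne_one (r u : K) (hr : r ≠ 0) (hr1 : r ≠ 1) (hu0 : u ≠ 0) (hu1 : u ≠ 1) :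
    hh r u ≠ 1 := by
  unfold hh
  intro h
  rw [div_eq_one_iff_eq (mul_ne_zero hr (pow_ne_zero _ (sub_ne_zero.2 hu1)))] at h
  have : u * (r - 1) ^ 2 = 0 := by linear_combination -h
  rcases mul_eq_zero.1 this with h' | h'
  · exact hu0 h'
  · exact hr1 (sub_eq_zero.1 (pow_eq_zero_iff (two_ne_zero) |>.1 h'))

lemma Sys.sum_hh (hw : Sys w) (r : K) (hr : r ≠ 0) (hr1 : r ≠ 1) :
    ∑ u ∈ univ.filter (fun u : K => u ≠ 0 ∧ u ≠ 1 ∧ u ≠ r ∧ u ≠ r⁻¹), ‖FF w (hh r u)‖ ^ 2
      ≤ 4 * kap w ^ 2 := by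
  have hmaps : ∀ u ∈ univ.filter (fun u : K => u ≠ 0 ∧ u ≠ 1 ∧ u ≠ r ∧ u ≠ r⁻¹),
      hh r u ∈ univ.filter (fun t : K => t ≠ 0 ∧ t ≠ 1) := by
    intro u hu
    simp only [mem_filter, mem_univ, true_and] at hu ⊢
    exact ⟨hh_ne_zero r u hr hu.2.1 hu.2.2.1 hu.2.2.2, hh_ne_one r u hr hr1 hu.1 hu.2.1⟩
  rw [← Finset.sum_fiberwise_of_maps_to hmaps]
  have : ∀ t ∈ univ.filter (fun t : K => t ≠ 0 ∧ t ≠ 1),
      ∑ u ∈ (univ.filter (fun u : K => u ≠ 0 ∧ u ≠ 1 ∧ u ≠ r ∧ u ≠ r⁻¹)).filter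
        (fun u => hh r u = t), ‖FF w (hh r u)‖ ^ 2 ≤ 2 * ‖FF w t‖ ^ 2 := by
    intro t ht
    simp only [mem_filter, mem_univ, true_and] at ht
    rw [Finset.sum_congr rfl (fun u hu => by rw [(Finset.mem_filter.1 hu).2]), Finset.sum_const,
      nsmul_eq_mul]
    have hc : ((univ.filter (fun u : K => u ≠ 0 ∧ u ≠ 1 ∧ u ≠ r ∧ u ≠ r⁻¹)).filter
        (fun u => hh r u = t)).card ≤ 2 := by
      apply quad_card (r * (1 - t)) (2 * t * r - r ^ 2 - 1) (r * (1 - t))
      · exact mul_ne_zero hr (sub_ne_zero.2 (Ne.symm ht.2))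
      · intro u hu
        simp only [mem_filter, mem_univ, true_and] at hu
        have h := hu.2
        unfold hh at h
        rw [div_eq_iff (mul_ne_zero hr (pow_ne_zero _ (sub_ne_zero.2 hu.1.2.1)))] at h
        linear_combination h
    have hc' : (((univ.filter (fun u : K => u ≠ 0 ∧ u ≠ 1 ∧ u ≠ r ∧ u ≠ r⁻¹)).filter
        (fun u => hh r u = t)).card : ℝ) ≤ 2 := by exact_mod_cast hc
    exact mul_le_mul_of_nonneg_right hc' (by positivity)
  refine (Finset.sum_le_sum this).trans ?_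
  rw [← Finset.mul_sum]
  have := hw.sqsum
  linarith

lemma Sys.sum_hh' (hw : Sys w) (r : K) (hr : r ≠ 0) (hr1 : r ≠ 1) :
    ∑ u ∈ univ.filter (fun u : K => u ≠ 0 ∧ u ≠ 1 ∧ u ≠ r ∧ u ≠ r⁻¹), ‖FF w (hh r u)‖
      ≤ 2 * kap w * √(Fintype.card K) := by
  have h1 := hw.sum_hh r hr hr1
  have h2 := sq_sum_le_card_mul_sum_sq
    (s := univ.filter (fun u : K => u ≠ 0 ∧ u ≠ 1 ∧ u ≠ r ∧ u ≠ r⁻¹))
    (f := fun u => ‖FF w (hh r u)‖)
  have h3 : ((univ.filter (fun u : K => u ≠ 0 ∧ u ≠ 1 ∧ u ≠ r ∧ u ≠ r⁻¹)).card : ℝ)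
      ≤ Fintype.card K := by
    exact_mod_cast Finset.card_le_univ _
  apply le_of_sq_le_sq _ (by have := kap_nonneg (w := w); positivity)
  rw [mul_pow, Real.sq_sqrt (by positivity)]
  refine h2.trans ?_
  calc _ ≤ (Fintype.card K : ℝ) * (4 * kap w ^ 2) := by
        apply mul_le_mul h3 h1 (by positivity) (by positivity)
    _ = _ := by ring

lemma Sys.Zbound (hw : Sys w) (r : K) (hr : r ≠ 0) (hr1 : r ≠ 1) :
    ∑ u : K, ‖⟪w ((1 : K) : OnePoint K) (r : OnePoint K),
      w (u : OnePoint K) ((u * r : K) : OnePoint K)⟫_ℂ‖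
      ≤ kap w * (3 + 2 * √(Fintype.card K)) := by
  have hle : ∀ u : K, ‖⟪w ((1 : K) : OnePoint K) (r : OnePoint K),
      w (u : OnePoint K) ((u * r : K) : OnePoint K)⟫_ℂ‖ ≤
      (if u ≠ 0 ∧ u ≠ 1 ∧ u ≠ r ∧ u ≠ r⁻¹ then ‖FF w (hh r u)‖ else 0)
        + ((if u = 1 then kap w else 0) + (if u = r then kap w else 0)
          + (if u = r⁻¹ then kap w else 0)) := by
    intro u
    have hk := kap_nonneg (w := w)
    by_cases h0 : u = 0
    · subst h0
      rw [zero_mul, hw.diag, inner_zero_right, norm_zero]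
      positivity
    have hne : (u : OnePoint K) ≠ ((u * r : K) : OnePoint K) := by
      intro h
      rw [OnePoint.coe_eq_coe] at h
      apply hr1
      have : u * (1 - r) = 0 := by linear_combination h
      rcases mul_eq_zero.1 this with h' | h'
      · exact absurd h' h0
      · exact (sub_eq_zero.1 h').symm
    have hb := hw.norm_le ((1 : K) : OnePoint K) (r : OnePoint K) (u : OnePoint K)
      ((u * r : K) : OnePoint K) (by rw [Ne, OnePoint.coe_eq_coe]; exact fun h => hr1 h.symm) hne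
    by_cases h1 : u = 1
    · rw [if_neg (by tauto), if_pos h1]
      have : (0 : ℝ) ≤ (if u = r then kap w else 0) + (if u = r⁻¹ then kap w else 0) := by
        positivity
      linarith
    by_cases h2 : u = r
    · rw [if_neg (by tauto), if_pos h2, if_neg h1]
      have : (0 : ℝ) ≤ (if u = r⁻¹ then kap w else 0) := by positivity
      linarith
    by_cases h3 : u = r⁻¹
    · rw [if_neg (by tauto), if_pos h3, if_neg h1, if_neg h2]
      linarith
    rw [if_pos ⟨h0, h1, h2, h3⟩, if_neg h1, if_neg h2, if_neg h3, hw.scaled r u hr hr1 h1 h2]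
    simp
  refine (Finset.sum_le_sum fun u _ => hle u).trans ?_
  rw [Finset.sum_add_distrib, Finset.sum_add_distrib, Finset.sum_add_distrib,
    Finset.sum_ite_eq' univ (1 : K), Finset.sum_ite_eq' univ r, Finset.sum_ite_eq' univ r⁻¹,
    if_pos (mem_univ _), if_pos (mem_univ _), if_pos (mem_univ _), ← Finset.sum_filter]
  have := hw.sum_hh' r hr hr1
  linarith

lemma Sys.decayF (hw : Sys w) (r : K) (hr : r ≠ 0) (hr1 : r ≠ 1) (hQ : 9 ≤ Fintype.card K) :
    ‖FF w r‖ ^ 2 * √(Fintype.card K) ≤ 4 * kap w ^ 2 := by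
  set z : H := ∑ t : K, w (t : OnePoint K) ((t * r : K) : OnePoint K) with hz
  set Z : ℂ := ∑ u : K, ⟪w ((1 : K) : OnePoint K) (r : OnePoint K),
      w (u : OnePoint K) ((u * r : K) : OnePoint K)⟫_ℂ with hZ
  set Q : ℝ := (Fintype.card K : ℝ) with hQdef
  have hQ9 : (9 : ℝ) ≤ Q := by rw [hQdef]; exact_mod_cast hQ
  -- inner product with `w 0 ∞`
  have h1 : ⟪w ((0 : K) : OnePoint K) ∞, z⟫_ℂ = (Q - 1 : ℝ) * FF w r := by
    rw [hz, inner_sum]
    have : ∀ t : K, ⟪w ((0 : K) : OnePoint K) ∞, w (t : OnePoint K) ((t * r : K) : OnePoint K)⟫_ℂ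
        = FF w r - if t = 0 then FF w r else 0 := by
      intro t
      by_cases h0 : t = 0
      · subst h0
        rw [zero_mul, hw.diag, inner_zero_right]; simp
      · rw [if_neg h0, sub_zero]
        have := hw.inv (mob t 0 0 1 (by simpa using h0)) ((0 : K) : OnePoint K) ∞
          ((1 : K) : OnePoint K) (r : OnePoint K)
        simpa [mob_infty, mob_coe, FF] using this
    rw [Finset.sum_congr rfl (fun t _ => this t), Finset.sum_sub_distrib, Finset.sum_ite_eq',
      if_pos (mem_univ _), Finset.sum_const, Finset.card_univ, nsmul_eq_mul]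
    push_cast
    rw [hQdef]; push_cast; ring
  have h2 : ⟪z, z⟫_ℂ = (Q - 1 : ℝ) * Z := by
    conv_lhs => rw [hz, sum_inner]
    have : ∀ t : K, ⟪w (t : OnePoint K) ((t * r : K) : OnePoint K), z⟫_ℂ =
        Z - if t = 0 then Z else 0 := by
      intro t
      by_cases h0 : t = 0
      · subst h0
        rw [zero_mul, hw.diag, inner_zero_left]; simp
      · rw [if_neg h0, sub_zero, hz, inner_sum, hZ,
          ← Equiv.sum_comp (Equiv.mulLeft₀ t h0)]
        refine Finset.sum_congr rfl fun u _ => ?_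
        have := hw.inv (mob t 0 0 1 (by simpa using h0)) ((1 : K) : OnePoint K) (r : OnePoint K)
          (u : OnePoint K) ((u * r : K) : OnePoint K)
        simpa [mob_infty, mob_coe, mul_assoc] using this
    rw [← hz, Finset.sum_congr rfl (fun t _ => this t), Finset.sum_sub_distrib, Finset.sum_ite_eq',
      if_pos (mem_univ _), Finset.sum_const, Finset.card_univ, nsmul_eq_mul]
    push_cast
    rw [hQdef]; push_cast; ring
  have hZb : ‖Z‖ ≤ kap w * (3 + 2 * √Q) := (norm_sum_le _ _).trans (hw.Zbound r hr hr1)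
  have hzz : ‖z‖ ^ 2 = (Q - 1) * ‖Z‖ := by
    have h3 : (‖z‖ ^ 2 : ℝ) = ‖⟪z, z⟫_ℂ‖ := by
      rw [inner_self_eq_norm_sq_to_K]; simp
    rw [h3, h2, norm_mul, Complex.norm_real, Real.norm_eq_abs, abs_of_nonneg (by linarith)]
  have hF : (Q - 1) * ‖FF w r‖ ≤ ‖w ((0 : K) : OnePoint K) ∞‖ * ‖z‖ := by
    have := norm_inner_le_norm (𝕜 := ℂ) (w ((0 : K) : OnePoint K) ∞) z
    rwa [h1, norm_mul, Complex.norm_real, Real.norm_eq_abs, abs_of_nonneg (by linarith)] at this
  have hF2 : ((Q - 1) * ‖FF w r‖) ^ 2 ≤ kap w * ((Q - 1) * ‖Z‖) := by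
    rw [← hzz, kap, ← mul_pow]
    have : 0 ≤ (Q - 1) * ‖FF w r‖ := mul_nonneg (by linarith) (norm_nonneg _)
    gcongr
  have hk := kap_nonneg (w := w)
  have hsq : √Q * √Q = Q := Real.mul_self_sqrt (by linarith)
  have hs3 : 3 ≤ √Q := by
    rw [show (3 : ℝ) = √9 by rw [show (9 : ℝ) = 3 ^ 2 by norm_num]; simp]
    exact Real.sqrt_le_sqrt hQ9
  have hF3 : (Q - 1) * ‖FF w r‖ ^ 2 ≤ kap w ^ 2 * (3 + 2 * √Q) := by
    have : (Q - 1) * ((Q - 1) * ‖FF w r‖ ^ 2) ≤ (Q - 1) * (kap w ^ 2 * (3 + 2 * √Q)) := by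
      calc (Q - 1) * ((Q - 1) * ‖FF w r‖ ^ 2) = ((Q - 1) * ‖FF w r‖) ^ 2 := by ring
        _ ≤ kap w * ((Q - 1) * ‖Z‖) := hF2
        _ = (Q - 1) * (kap w * ‖Z‖) := by ring
        _ ≤ (Q - 1) * (kap w * (kap w * (3 + 2 * √Q))) := by
            apply mul_le_mul_of_nonneg_left _ (by linarith)
            exact mul_le_mul_of_nonneg_left hZb hk
        _ = _ := by ring
    exact le_of_mul_le_mul_left this (by linarith)
  have hF4 : (Q - 1) * (‖FF w r‖ ^ 2 * √Q) ≤ (Q - 1) * (4 * kap w ^ 2) := by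
    calc (Q - 1) * (‖FF w r‖ ^ 2 * √Q) = ((Q - 1) * ‖FF w r‖ ^ 2) * √Q := by ring
      _ ≤ (kap w ^ 2 * (3 + 2 * √Q)) * √Q := by gcongr
      _ = kap w ^ 2 * (3 * √Q + 2 * (√Q * √Q)) := by ring
      _ = kap w ^ 2 * (3 * √Q + 2 * Q) := by rw [hsq]
      _ ≤ kap w ^ 2 * (4 * (Q - 1)) := by
          apply mul_le_mul_of_nonneg_left _ (by positivity)
          nlinarith
      _ = _ := by ring
  exact le_of_mul_le_mul_left hF4 (by linarith)

/-- decay for all pairs -/
lemma Sys.decay (hw : Sys w) (hQ : 9 ≤ Fintype.card K) (a b c d : OnePoint K)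
    (hab : a ≠ b) (hcd : c ≠ d) (h1 : ¬ (c = a ∧ d = b)) (h2 : ¬ (c = b ∧ d = a)) :
    ‖⟪w a b, w c d⟫_ℂ‖ ^ 2 * √(Fintype.card K) ≤ 4 * kap w ^ 2 := by
  have hk := kap_nonneg (w := w)
  have hQ9 : (9 : ℝ) ≤ Fintype.card K := by exact_mod_cast hQ
  have hsq : √(Fintype.card K : ℝ) * √(Fintype.card K : ℝ) = Fintype.card K :=
    Real.mul_self_sqrt (by linarith)
  have hs3 : 3 ≤ √(Fintype.card K : ℝ) := by
    rw [show (3 : ℝ) = √9 by rw [show (9 : ℝ) = 3 ^ 2 by norm_num]; simp]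
    exact Real.sqrt_le_sqrt hQ9
  have hf0 : ‖f0 w‖ ^ 2 * √(Fintype.card K) ≤ 4 * kap w ^ 2 := by
    have h := hw.f0_norm
    set s := √(Fintype.card K : ℝ) with hs
    have h3 : s * ‖f0 w‖ ≤ kap w := by
      rw [← h, ← hsq]
      apply mul_le_mul_of_nonneg_right _ (norm_nonneg _)
      nlinarith
    have h4 : (s * ‖f0 w‖) ^ 2 ≤ kap w ^ 2 := by
      have : 0 ≤ s * ‖f0 w‖ := by positivity
      gcongr
    nlinarith [sq_nonneg (‖f0 w‖), mul_nonneg (sq_nonneg (‖f0 w‖)) (by linarith : 0 ≤ s),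
      mul_nonneg (mul_nonneg (sq_nonneg (‖f0 w‖)) (by linarith : 0 ≤ s)) (by linarith : 0 ≤ s - 1)]
  -- reduce to `a = 0`, `b = ∞`
  have key : ∀ c d : OnePoint K, c ≠ d → ¬ (c = ((0 : K) : OnePoint K) ∧ d = ∞) →
      ¬ (c = ∞ ∧ d = ((0 : K) : OnePoint K)) →
      ‖⟪w ((0 : K) : OnePoint K) ∞, w c d⟫_ℂ‖ ^ 2 * √(Fintype.card K) ≤ 4 * kap w ^ 2 := by
    intro c d hcd h1 h2
    have hJ : ∀ d : K, d ≠ 0 → ⟪w ((0 : K) : OnePoint K) ∞,
        w ((0 : K) : OnePoint K) (d : OnePoint K)⟫_ℂ = f0 w := by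
      intro d hd
      have := hw.inv (mob 0 1 1 0 (by simp)) ((0 : K) : OnePoint K) ∞ ((0 : K) : OnePoint K)
        (d : OnePoint K)
      simp only [mob_infty, mob_coe] at this
      simp only [mul_zero, zero_add, zero_mul, add_zero, if_true, one_ne_zero, if_false,
        zero_div, one_mul, hd] at this
      rw [← this, hw.anti, hw.anti ((1 / d : K) : OnePoint K), inner_neg_neg]
      exact hw.star 0 (1 / d) (Ne.symm (one_div_ne_zero hd))
    induction c using OnePoint.rec with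
    | infty =>
      induction d using OnePoint.rec with
      | infty => exact absurd rfl hcd
      | coe d =>
        have hd : d ≠ 0 := fun h => h2 ⟨rfl, by rw [h]⟩
        rw [hw.anti (d : OnePoint K) ∞, inner_neg_right, norm_neg, hw.star 0 d (Ne.symm hd)]
        exact hf0
    | coe c =>
      induction d using OnePoint.rec with
      | infty =>
        have hc : c ≠ 0 := fun h => h1 ⟨by rw [h], rfl⟩
        rw [hw.star 0 c (Ne.symm hc)]
        exact hf0
      | coe d =>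
        have hcd' : c ≠ d := fun h => hcd (by rw [h])
        by_cases hc : c = 0
        · subst hc
          rw [hJ d (Ne.symm hcd')]
          exact hf0
        by_cases hd : d = 0
        · subst hd
          rw [hw.anti ((0 : K) : OnePoint K) (c : OnePoint K), inner_neg_right, norm_neg, hJ c hc]
          exact hf0
        have := hw.inv (mob c 0 0 1 (by simpa using hc)) ((0 : K) : OnePoint K) ∞
          ((1 : K) : OnePoint K) ((d / c : K) : OnePoint K)
        have e : c * (d / c) = d := by field_simp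
        simp only [mob_infty, mob_coe] at this
        simp only [mul_zero, zero_mul, zero_add, add_zero, one_ne_zero, if_true, if_false, mul_one,
          div_one, e] at this
        rw [this]
        exact hw.decayF (d / c) (div_ne_zero hd hc) (fun h => hcd' (by
          rw [div_eq_one_iff_eq hc] at h; exact h.symm)) hQ
  have move : ∀ a b : OnePoint K, a ≠ b → ∃ g : GL (Fin 2) K,
      g • ((0 : K) : OnePoint K) = a ∧ g • (∞ : OnePoint K) = b := by
    intro a b hab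
    induction a using OnePoint.rec with
    | infty =>
      induction b using OnePoint.rec with
      | infty => exact absurd rfl hab
      | coe b =>
        refine ⟨mob b 1 1 0 (by simp), ?_, ?_⟩
        · simp [mob_coe]
        · simp [mob_infty]
    | coe a =>
      induction b using OnePoint.rec with
      | infty =>
        refine ⟨mob 1 a 0 1 (by simp), ?_, ?_⟩
        · simp [mob_coe]
        · simp [mob_infty]
      | coe b =>
        have hab' : b - a ≠ 0 := fun h' => hab (by rw [sub_eq_zero.1 h'])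
        refine ⟨mob b a 1 1 (by simpa using hab'), ?_, ?_⟩
        · simp [mob_coe]
        · simp [mob_infty]
  obtain ⟨g, hg0, hgi⟩ := move a b hab
  have h := hw.inv g ((0 : K) : OnePoint K) ∞ (g⁻¹ • c) (g⁻¹ • d)
  rw [smul_inv_smul, smul_inv_smul, hg0, hgi] at h
  rw [h]
  apply key
  · intro h'; exact hcd (MulAction.injective g⁻¹ h')
  · rintro ⟨h3, h4⟩
    rw [inv_smul_eq_iff] at h3 h4
    exact h1 ⟨by rw [h3, hg0], by rw [h4, hgi]⟩
  · rintro ⟨h3, h4⟩
    rw [inv_smul_eq_iff] at h3 h4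
    exact h2 ⟨by rw [h3, hgi], by rw [h4, hg0]⟩

end Q22.SA
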