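import Mathlib

open scoped TensorProduct

namespace Q22.SA

/-- `SL₂(F)` as an abstract group. -/
abbrev SL (F : Type*) [Field F] := Matrix.SpecialLinearGroup (Fin 2) F

lemma borel_mul (F : Type*) [Field F] {a b : SL F} (ha : a 1 0 = 0) (hb : b 1 0 = 0) :
    (a * b : SL F) 1 0 = 0 := by
  simp [Matrix.SpecialLinearGroup.coe_mul, Matrix.mul_apply, Fin.sum_univ_two, ha, hb]

lemma borel_one (F : Type*) [Field F] : (1 : SL F) 1 0 = 0 := by simp

lemma borel_inv (F : Type*) [Field F] {a : SL F} (ha : a 1 0 = 0) : (a⁻¹ : SL F) 1 0 = 0 := by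
  simp [Matrix.SpecialLinearGroup.SL2_inv_expl, ha]

/-- The subgroup `B` of upper triangular matrices of `SL₂(F)`. -/
def Borel (F : Type*) [Field F] : Subgroup (SL F) where
  carrier := {g | g 1 0 = 0}
  one_mem' := borel_one F
  mul_mem' := borel_mul F
  inv_mem' := borel_inv F

lemma eps_det (F : Type*) [Field F] (x : F) : (!![1, x; 0, 1] : Matrix (Fin 2) (Fin 2) F).det = 1 := by
  simp [Matrix.det_fin_two]

lemma s_det (F : Type*) [Field F] : (!![0, 1; -1, 0] : Matrix (Fin 2) (Fin 2) F).det = 1 := by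
  simp [Matrix.det_fin_two]

/-- The matrix `ε(x) = (1 x; 0 1)`. -/
def eps (F : Type*) [Field F] (x : F) : SL F := ⟨!![1, x; 0, 1], eps_det F x⟩

/-- The matrix `s = (0 1; -1 0)`. -/
def sMat (F : Type*) [Field F] : SL F := ⟨!![0, 1; -1, 0], s_det F⟩

/-- The set of cosets `G / B`. -/
abbrev XX (F : Type*) [Field F] := SL F ⧸ Borel F

variable (k : Type*) [Field k] (F : Type*) [Field F]

/-- The module `𝕄(tr) = kG ⊗_{kB} k_tr`, that is, the permutation module with basis `G / B`
(`g ⊗ 1` is the basis vector of the coset `g B`). -/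
def MM := XX F →₀ k

noncomputable instance instMM : AddCommGroup (MM k F) :=
  (inferInstance : AddCommGroup (XX F →₀ k))

noncomputable instance instMM' : Module k (MM k F) := (inferInstance : Module k (XX F →₀ k))

/-- The linear map of `𝕄(tr)` which maps the basis vector of `h B` to the one of `g h B`. -/
noncomputable def mapM (g : SL F) : MM k F →ₗ[k] MM k F :=
  (Finsupp.lmapDomain k k (fun x : XX F => g • x) : (XX F →₀ k) →ₗ[k] (XX F →₀ k))

lemma mapM_one : mapM k F 1 = 1 := by
  apply LinearMap.ext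
  intro x
  change Finsupp.mapDomain (fun x : XX F => (1 : SL F) • x) x = x
  simp only [one_smul]
  exact Finsupp.mapDomain_id

lemma mapDomain_mul (g h : SL F) (x : XX F →₀ k) :
    Finsupp.mapDomain (fun x : XX F => (g * h) • x) x =
    Finsupp.mapDomain (fun x : XX F => g • x) (Finsupp.mapDomain (fun x : XX F => h • x) x) := by
  rw [← Finsupp.mapDomain_comp]
  congr 1
  funext y
  exact mul_smul _ _ _

lemma mapM_mul (g h : SL F) : mapM k F (g * h) = mapM k F g * mapM k F h := by
  apply LinearMap.ext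
  intro x
  exact mapDomain_mul k F g h x

/-- The action of `G` on `𝕄(tr)`, by left multiplication of the cosets. -/
noncomputable def rhoM : Representation k (SL F) (MM k F) where
  toFun := mapM k F
  map_one' := mapM_one k F
  map_mul' := mapM_mul k F

/-- The basis vector of `𝕄(tr)` of the coset `x`. -/
noncomputable def bas (x : XX F) : MM k F := (Finsupp.single x 1 : XX F →₀ k)

/-- The generator `1_tr = 1 ⊗ 1` of `𝕄(tr)`. -/
noncomputable def oneTr : MM k F := bas k F ((1 : SL F) : XX F)

/-- `η = (1 - s) 1_tr`. -/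
noncomputable def eta : MM k F := oneTr k F - rhoM k F (sMat F) (oneTr k F)

/-- The Steinberg module `St = kG η ⊆ 𝕄(tr)`. -/
noncomputable def St : Submodule k (MM k F) :=
  Submodule.span k (Set.range fun g : SL F => rhoM k F g (eta k F))

lemma St_le (g : SL F) : St k F ≤ (St k F).comap (rhoM k F g) := by
  rw [St, Submodule.span_le]
  rintro _ ⟨h, rfl⟩
  apply Submodule.subset_span
  exact ⟨g * h, by simp⟩

/-- The action of `G` on `St`. -/
noncomputable def rhoSt : Representation k (SL F) (St k F) :=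
  (rhoM k F).subrepresentation (St k F) (St_le k F)

/-- The tensor product `St ⊗ St` over `k`. -/
def TT := St k F ⊗[k] St k F

noncomputable instance instTT : AddCommGroup (TT k F) :=
  (inferInstance : AddCommGroup (St k F ⊗[k] St k F))

noncomputable instance instTT' : Module k (TT k F) :=
  (inferInstance : Module k (St k F ⊗[k] St k F))

/-- The pure tensor `a ⊗ b`. -/
noncomputable def ten (a b : St k F) : TT k F := a ⊗ₜ[k] b

/-- The diagonal action of `G` on `St ⊗ St`. -/
noncomputable def rhoTT : Representation k (SL F) (TT k F) := (rhoSt k F).tprod (rhoSt k F)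

lemma ee_mem (x : F) : rhoM k F (eps F x) (eta k F) ∈ St k F :=
  Submodule.subset_span ⟨eps F x, rfl⟩

/-- `e_x = ε(x) η`. -/
noncomputable def ee (x : F) : St k F := ⟨rhoM k F (eps F x) (eta k F), ee_mem k F x⟩

/-- `ρ_{x,y} = (e_x ⊗ e_y - e_y ⊗ e_x) / 2`. -/
noncomputable def rr (x y : F) : TT k F :=
  (1 / 2 : k) • (ten k F (ee k F x) (ee k F y) - ten k F (ee k F y) (ee k F x))

/-- `V₋`, the span of the `ρ_{x,y}` with `x ≠ y`. -/
noncomputable def Vm : Submodule k (TT k F) :=
  Submodule.span k {v | ∃ x y : F, x ≠ y ∧ v = rr k F x y}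

/-- The `k`-subspace `W` of `St ⊗ St` is `G`-stable. -/
def Stable (W : Submodule k (TT k F)) : Prop := ∀ g : SL F, ∀ x ∈ W, rhoTT k F g x ∈ W

end Q22.SA
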