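import Mathlib

open Cardinal

namespace Q22.SA

universe u

/-- A countable field of characteristic zero embeds in `ℂ`. -/
theorem exists_ringHom_complex (k : Type u) [Field k] [CharZero k] (hk : #k ≤ ℵ₀) :
    Nonempty (k →+* ℂ) := by
  let R := MvPolynomial ℝ k
  let Fr := FractionRing R
  let L := AlgebraicClosure Fr
  have hR : #R = 𝔠 := by
    rw [MvPolynomial.cardinalMk_eq_max_lift, Cardinal.mk_real, Cardinal.lift_continuum]
    have h1 : lift.{0} #k ≤ 𝔠 := by
      rw [Cardinal.lift_uzero]; exact hk.trans aleph0_le_continuum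
    rw [max_eq_right h1, max_eq_left aleph0_le_continuum]
  have hF : #Fr = 𝔠 := by rw [IsFractionRing.cardinalMk R Fr, hR]
  have hL : #L = 𝔠 := by
    apply le_antisymm
    · refine (Algebra.IsAlgebraic.cardinalMk_le_max Fr L).trans ?_
      rw [hF, max_eq_left aleph0_le_continuum]
    · rw [← hF]
      exact Cardinal.mk_le_of_injective (algebraMap Fr L).injective
  have : CharZero R := inferInstance
  have : CharZero Fr := IsFractionRing.charZero R
  have : CharZero L := charZero_of_injective_algebraMap (algebraMap Fr L).injective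
  obtain ⟨e⟩ := IsAlgClosed.ringEquiv_of_equiv_of_charZero (K := L) (L := ℂ)
    (by rw [hL]; exact aleph0_lt_continuum)
    (Cardinal.lift_mk_eq'.1 (by rw [hL, Cardinal.mk_complex]; simp))
  exact ⟨e.toRingHom.comp ((algebraMap Fr L).comp ((algebraMap R Fr).comp MvPolynomial.C))⟩

/-- A finite system of linear equations over a subfield which is solvable in `ℂ`. -/
theorem descend (k : Type u) [Field k] [CharZero k] {ι κ : Type*} [Finite ι] [Fintype κ]
    (A : ι → κ → k) (b : ι → k)
    (H : ∀ (k₀ : Subfield k) (σ : k₀ →+* ℂ) (A' : ι → κ → k₀) (b' : ι → k₀),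
      (∀ i j, (A' i j : k) = A i j) → (∀ i, (b' i : k) = b i) →
      ∃ x : κ → ℂ, ∀ i, σ (b' i) = ∑ j, x j * σ (A' i j)) :
    ∃ x : κ → k, ∀ i, b i = ∑ j, x j * A i j := by
  classical
  set s : Set k := Set.range (fun p : ι × κ => A p.1 p.2) ∪ Set.range b with hs
  set k₀ : Subfield k := Subfield.closure s with hk₀
  have hsfin : s.Finite := (Set.finite_range _).union (Set.finite_range _)
  have hcard : #k₀ ≤ ℵ₀ := by
    refine (Subfield.cardinalMk_closure_le_max s).trans ?_
    rw [max_eq_right]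
    exact Cardinal.mk_le_aleph0_iff.2 hsfin.countable.to_subtype
  obtain ⟨σ⟩ := exists_ringHom_complex k₀ hcard
  let A' : ι → κ → k₀ := fun i j => ⟨A i j, Subfield.subset_closure (Or.inl ⟨(i, j), rfl⟩)⟩
  let b' : ι → k₀ := fun i => ⟨b i, Subfield.subset_closure (Or.inr ⟨i, rfl⟩)⟩
  obtain ⟨x, hx⟩ := H k₀ σ A' b' (fun _ _ => rfl) (fun _ => rfl)
  let _ : Algebra k₀ ℂ := σ.toAlgebra
  obtain ⟨τ, hτ⟩ := LinearMap.exists_leftInverse_of_injective (Algebra.linearMap k₀ ℂ)
    (LinearMap.ker_eq_bot.2 (algebraMap k₀ ℂ).injective)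
  have hτ' : ∀ y : k₀, τ (σ y) = y := fun y => by
    exact LinearMap.congr_fun hτ y
  refine ⟨fun j => (τ (x j) : k), fun i => ?_⟩
  have h1 := congrArg τ (hx i)
  rw [hτ', map_sum] at h1
  have h2 : ∀ j, τ (x j * σ (A' i j)) = A' i j * τ (x j) := by
    intro j
    have : x j * σ (A' i j) = (A' i j) • x j := by
      rw [Algebra.smul_def, mul_comm]; rfl
    rw [this, map_smul, smul_eq_mul]
  rw [Finset.sum_congr rfl (fun j _ => h2 j)] at h1
  have h3 := congrArg (fun y : k₀ => (y : k)) h1
  simp only [b'] at h3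
  rw [h3]
  push_cast
  exact Finset.sum_congr rfl (fun j _ => by simp only [A']; ring)

end Q22.SA
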