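import Pool.Agent.Q22.SA.Decay2

set_option linter.unusedSectionVars false

open scoped InnerProductSpace OnePoint
open Finset OnePoint

namespace Q22.SA

variable {K : Type*} [Field K] [Fintype K] [DecidableEq K]

/-- The Hilbert space of functions on ordered pairs of points. -/
abbrev HH (K : Type*) := EuclideanSpace ℂ (OnePoint K × OnePoint K)

/-- action of a Moebius transformation on functions on pairs -/
noncomputable def act (g : GL (Fin 2) K) : HH K ≃ₗᵢ[ℂ] HH K :=
  LinearIsometryEquiv.piLpCongrLeft 2 ℂ ℂ (MulAction.toPerm g)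

lemma act_apply (g : GL (Fin 2) K) (x : HH K) (a b : OnePoint K) :
    act g x (a, b) = x (g⁻¹ • a, g⁻¹ • b) := by
  simp [act, LinearIsometryEquiv.piLpCongrLeft_apply]

/-- antisymmetric functions with vanishing column sums -/
def CC (K : Type*) [Fintype K] : Submodule ℂ (HH K) where
  carrier := {x | (∀ a b, x (b, a) = - x (a, b)) ∧ ∀ c, ∑ a, x (a, c) = 0}
  add_mem' := by
    rintro x y ⟨h1, h2⟩ ⟨h3, h4⟩
    refine ⟨fun a b => ?_, fun c => ?_⟩
    · simp [h1 a b, h3 a b]; ring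
    · simp [Finset.sum_add_distrib, h2, h4]
  zero_mem' := by simp
  smul_mem' := by
    rintro r x ⟨h1, h2⟩
    refine ⟨fun a b => ?_, fun c => ?_⟩
    · simp [h1 a b]
    · simp [← Finset.mul_sum, h2]

lemma act_mem_CC (g : GL (Fin 2) K) {x : HH K} (hx : x ∈ CC K) : act g x ∈ CC K := by
  refine ⟨fun a b => ?_, fun c => ?_⟩
  · rw [act_apply, act_apply]; exact hx.1 _ _
  · simp only [act_apply]
    rw [Fintype.sum_equiv (MulAction.toPerm g⁻¹) (fun a => x (g⁻¹ • a, g⁻¹ • c))
      (fun a => x (a, g⁻¹ • c)) (fun a => rfl)]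
    exact hx.2 _

lemma inner_act (g : GL (Fin 2) K) (x y : HH K) : ⟪act g x, y⟫_ℂ = ⟪x, act g⁻¹ y⟫_ℂ := by
  have : y = act g (act g⁻¹ y) := by
    ext ⟨a, b⟩
    rw [act_apply, act_apply, inv_inv, smul_inv_smul, smul_inv_smul]
  nth_rw 1 [this]
  rw [LinearIsometryEquiv.inner_map_map]

theorem finite_level (L : Submodule ℂ (HH K)) (hLC : L ≤ CC K)
    (hL : ∀ (g : GL (Fin 2) K), ∀ x ∈ L, act g x ∈ L) (v : HH K) (hv : v ∈ L) (hv0 : v ≠ 0)
    (S : Finset (OnePoint K)) (hS : ∀ a b, v (a, b) ≠ 0 → a ∈ S ∧ b ∈ S)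
    (hcard : S.card ^ 8 < Fintype.card K) : CC K ≤ L := by
  classical
  intro u hu
  by_contra huL
  set M : Submodule ℂ (HH K) := Lᗮ ⊓ CC K with hM
  set y : HH K := u - L.starProjection u with hy
  have hyM : y ∈ M := by
    refine ⟨?_, ?_⟩
    · exact L.sub_starProjection_mem_orthogonal u
    · exact (CC K).sub_mem hu (hLC (L.starProjection_apply_mem u))
  have hy0 : y ≠ 0 := by
    intro h
    apply huL
    rw [hy, sub_eq_zero] at h
    rw [h]; exact L.starProjection_apply_mem u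
  have hMact : ∀ (g : GL (Fin 2) K), ∀ x ∈ M, act g x ∈ M := by
    intro g x hx
    refine ⟨?_, act_mem_CC g hx.2⟩
    change act g x ∈ Lᗮ
    rw [Submodule.mem_orthogonal']
    intro l hl
    rw [inner_act]
    exact (Submodule.mem_orthogonal' _ _).1 hx.1 _ (hL _ _ hl)
  set w : OnePoint K → OnePoint K → HH K := fun a b =>
    M.starProjection (EuclideanSpace.single (a, b) 1 - EuclideanSpace.single (b, a) 1) with hw
  have hwM : ∀ a b, w a b ∈ M := fun a b => M.starProjection_apply_mem _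
  have hwx : ∀ a b, ∀ x ∈ M, ⟪w a b, x⟫_ℂ = 2 * x (a, b) := by
    intro a b x hx
    rw [hw]
    simp only
    rw [Submodule.inner_starProjection_left_eq_right, Submodule.starProjection_eq_self_iff.2 hx,
      inner_sub_left, EuclideanSpace.inner_single_left, EuclideanSpace.inner_single_left,
      hx.2.1 a b]
    simp; ring
  have huniq : ∀ z ∈ M, (∀ x ∈ M, ⟪z, x⟫_ℂ = 0) → z = 0 := by
    intro z hz h
    exact inner_self_eq_zero.1 (h z hz)
  have hsys : Sys w := by
    refine ⟨?_, ?_, ?_⟩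
    · intro g a b c d
      have : ∀ a b, w (g • a) (g • b) = act g (w a b) := by
        intro a b
        rw [← sub_eq_zero]
        apply huniq _ (M.sub_mem (hwM _ _) (hMact g _ (hwM _ _)))
        intro x hx
        rw [inner_sub_left, hwx _ _ x hx, inner_act, hwx _ _ _ (hMact _ x hx), act_apply, inv_inv]
        ring
      rw [this, this, LinearIsometryEquiv.inner_map_map]
    · intro a b
      rw [hw]; simp only
      rw [← map_neg, neg_sub]
    · apply huniq _ (M.sum_mem fun a _ => hwM _ _)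
      intro x hx
      rw [sum_inner, Finset.sum_congr rfl (fun a _ => hwx _ _ x hx), ← Finset.mul_sum]
      have h1 := hx.2.2 ∞
      have h2 : x (∞, ∞) = 0 := by
        have := hx.2.1 ∞ ∞
        linear_combination this / 2
      have h3 : ∑ a : OnePoint K, x (a, ∞) = x (∞, ∞) + ∑ a : K, x ((a : OnePoint K), ∞) :=
        Fintype.sum_option (fun a : Option K => x ((a : OnePoint K), ∞))
      rw [h3, h2, zero_add] at h1
      rw [h1, mul_zero]
  -- the relation
  have hrel : ∑ p : OnePoint K × OnePoint K, v p • w p.1 p.2 = 0 := by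
    apply huniq _ (M.sum_mem fun a _ => M.smul_mem _ (hwM _ _))
    intro x hx
    rw [sum_inner]
    have h1 : ∀ p : OnePoint K × OnePoint K, ⟪v p • w p.1 p.2, x⟫_ℂ =
        2 * (x p * (starRingEnd ℂ) (v p)) := by
      rintro ⟨a, b⟩
      rw [inner_smul_left, hwx _ _ x hx]; ring
    rw [Finset.sum_congr rfl (fun p _ => h1 p), ← Finset.mul_sum]
    have h2 : ⟪v, x⟫_ℂ = ∑ p, x p * (starRingEnd ℂ) (v p) := by
      rw [PiLp.inner_apply]
      rfl
    rw [← h2, (Submodule.mem_orthogonal _ _).1 hx.1 _ hv, mul_zero]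
  -- kappa is positive
  have hkap : 0 < kap w := by
    obtain ⟨⟨a, b⟩, hp⟩ : ∃ p, y p ≠ 0 := by
      by_contra h
      push Not at h
      exact hy0 (by ext p; simpa using h p)
    have hab : a ≠ b := by
      rintro rfl
      have := hyM.2.1 a a
      apply hp
      linear_combination this / 2
    have hne : w a b ≠ 0 := by
      intro h
      have := hwx a b y hyM
      rw [h, inner_zero_left] at this
      apply hp
      linear_combination -this / 2
    rw [← hsys.norm_eq a b hab]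
    have := norm_pos_iff.2 hne
    positivity
  -- the largest coefficient
  obtain ⟨p₀, -, hmax⟩ := Finset.exists_max_image univ (fun p => ‖v p‖)
    ⟨((∞ : OnePoint K), (∞ : OnePoint K)), mem_univ _⟩
  obtain ⟨a, b⟩ := p₀
  have hmax' : ∀ p, ‖v p‖ ≤ ‖v (a, b)‖ := fun p => hmax p (mem_univ _)
  have hvab : v (a, b) ≠ 0 := by
    intro h
    apply hv0
    ext p
    have := hmax' p
    rw [h, norm_zero] at this
    simpa using this
  have hvC := hLC hv
  have hab : a ≠ b := by
    rintro rfl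
    have := hvC.1 a a
    apply hvab
    linear_combination this / 2
  have hSa := hS a b hvab
  have hS2 : 2 ≤ S.card := by
    have : 1 < S.card := Finset.one_lt_card.2 ⟨a, hSa.1, b, hSa.2, hab⟩
    omega
  have hQ : 9 ≤ Fintype.card K := by
    have : 2 ^ 8 ≤ S.card ^ 8 := Nat.pow_le_pow_left hS2 8
    omega
  have hQpos : (0 : ℝ) < Fintype.card K := by
    have : 0 < Fintype.card K := by omega
    exact_mod_cast this
  set q : ℝ := √(Fintype.card K : ℝ) with hq
  have hqpos : 0 < q := Real.sqrt_pos.2 hQpos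
  set ε : ℝ := √(4 * kap w ^ 2 / q) with hε
  have hεsq : ε ^ 2 = 4 * kap w ^ 2 / q := Real.sq_sqrt (by positivity)
  have hε0 : 0 ≤ ε := Real.sqrt_nonneg _
  have hsmall : ∀ c d, ¬ (c = a ∧ d = b) → ¬ (c = b ∧ d = a) → ‖⟪w a b, w c d⟫_ℂ‖ ≤ ε := by
    intro c d h1 h2
    by_cases hcd : c = d
    · subst hcd
      rw [hsys.diag, inner_zero_right, norm_zero]; exact hε0
    · have := hsys.decay hQ a b c d hab hcd h1 h2
      apply Real.le_sqrt_of_sq_le
      rw [le_div_iff₀ hqpos]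
      exact this
  have hinn : ∑ p ∈ S ×ˢ S, v p * ⟪w a b, w p.1 p.2⟫_ℂ = 0 := by
    have h1 : ⟪w a b, ∑ p : OnePoint K × OnePoint K, v p • w p.1 p.2⟫_ℂ = 0 := by
      rw [hrel, inner_zero_right]
    rw [inner_sum] at h1
    rw [← h1]
    have h2 : ∀ p : OnePoint K × OnePoint K, ⟪w a b, v p • w p.1 p.2⟫_ℂ =
        v p * ⟪w a b, w p.1 p.2⟫_ℂ := fun p => inner_smul_right _ _ _
    rw [Finset.sum_congr rfl (fun p _ => h2 p)]
    apply Finset.sum_subset (Finset.subset_univ _)
    rintro ⟨c, d⟩ - hp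
    by_cases hz : v (c, d) = 0
    · rw [hz, zero_mul]
    · exact absurd (Finset.mem_product.2 (hS c d hz)) hp
  have hm1 : (a, b) ∈ S ×ˢ S := Finset.mem_product.2 hSa
  have hm2 : (b, a) ∈ (S ×ˢ S).erase (a, b) := by
    rw [Finset.mem_erase]
    exact ⟨fun h => hab (Prod.ext_iff.1 h).2, Finset.mem_product.2 ⟨hSa.2, hSa.1⟩⟩
  rw [← Finset.add_sum_erase _ _ hm1, ← Finset.add_sum_erase _ _ hm2] at hinn
  have e1 : ⟪w a b, w a b⟫_ℂ = (kap w : ℂ) := hsys.self a b hab
  have e2 : ⟪w a b, w b a⟫_ℂ = -(kap w : ℂ) := by rw [hsys.anti a b, inner_neg_right, e1]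
  simp only [e1, e2] at hinn
  rw [hvC.1 a b] at hinn
  set R : ℂ := ∑ p ∈ ((S ×ˢ S).erase (a, b)).erase (b, a), v p * ⟪w a b, w p.1 p.2⟫_ℂ with hR
  have hRle : ‖R‖ ≤ (S.card : ℝ) ^ 2 * (‖v (a, b)‖ * ε) := by
    refine (norm_sum_le _ _).trans ?_
    have : ∀ p ∈ ((S ×ˢ S).erase (a, b)).erase (b, a), ‖v p * ⟪w a b, w p.1 p.2⟫_ℂ‖ ≤
        ‖v (a, b)‖ * ε := by
      rintro ⟨c, d⟩ hp
      rw [Finset.mem_erase, Finset.mem_erase] at hp
      rw [norm_mul]
      apply mul_le_mul (hmax' _) _ (norm_nonneg _) (norm_nonneg _)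
      apply hsmall
      · rintro ⟨rfl, rfl⟩; exact hp.2.1 rfl
      · rintro ⟨rfl, rfl⟩; exact hp.1 rfl
    refine (Finset.sum_le_card_nsmul _ _ _ this).trans ?_
    rw [nsmul_eq_mul]
    apply mul_le_mul_of_nonneg_right _ (by positivity)
    have h1 : (((S ×ˢ S).erase (a, b)).erase (b, a)).card ≤ (S ×ˢ S).card :=
      (Finset.card_le_card (Finset.erase_subset _ _)).trans
        (Finset.card_le_card (Finset.erase_subset _ _))
    rw [Finset.card_product, ← sq] at h1
    exact_mod_cast h1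
  have hReq : R = -(2 * v (a, b) * kap w) := by linear_combination hinn
  have hRn : ‖R‖ = 2 * ‖v (a, b)‖ * kap w := by
    rw [hReq, norm_neg, norm_mul, norm_mul, Complex.norm_real, Real.norm_eq_abs,
      abs_of_nonneg hkap.le]
    simp
  rw [hRn] at hRle
  have hvpos : 0 < ‖v (a, b)‖ := norm_pos_iff.2 hvab
  have h3 : 2 * kap w ≤ (S.card : ℝ) ^ 2 * ε := by
    have : ‖v (a, b)‖ * (2 * kap w) ≤ ‖v (a, b)‖ * ((S.card : ℝ) ^ 2 * ε) := by linarith
    exact le_of_mul_le_mul_left this hvpos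
  have h4 : (2 * kap w) ^ 2 ≤ (S.card : ℝ) ^ 4 * ε ^ 2 := by
    calc (2 * kap w) ^ 2 ≤ ((S.card : ℝ) ^ 2 * ε) ^ 2 := by gcongr
      _ = _ := by ring
  rw [hεsq] at h4
  have h5 : q ≤ (S.card : ℝ) ^ 4 := by
    have h6 : (4 * kap w ^ 2) * q ≤ (4 * kap w ^ 2) * (S.card : ℝ) ^ 4 := by
      calc (4 * kap w ^ 2) * q = (2 * kap w) ^ 2 * q := by ring
        _ ≤ ((S.card : ℝ) ^ 4 * (4 * kap w ^ 2 / q)) * q := by gcongr
        _ = _ := by field_simp
    exact le_of_mul_le_mul_left h6 (by positivity)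
  have h6 : (Fintype.card K : ℝ) ≤ (S.card : ℝ) ^ 8 := by
    calc (Fintype.card K : ℝ) = q ^ 2 := by rw [hq, Real.sq_sqrt hQpos.le]
      _ ≤ ((S.card : ℝ) ^ 4) ^ 2 := by gcongr
      _ = _ := by ring
  have h7 : Fintype.card K ≤ S.card ^ 8 := by exact_mod_cast h6
  omega

end Q22.SA
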