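import Pool.Agent.Q22.SA.Fin
import Pool.Agent.Q22.SA.Emb

set_option linter.unusedSectionVars false

open scoped InnerProductSpace OnePoint
open Finset OnePoint

namespace Q22.SA

theorem finite_level_k (k : Type*) [Field k] [CharZero k] (K : Type*) [Field K] [Fintype K]
    [DecidableEq K] (v u : OnePoint K → OnePoint K → k)
    (hv1 : ∀ a b, v b a = - v a b) (hv2 : ∀ c, ∑ a, v a c = 0)
    (hu1 : ∀ a b, u b a = - u a b) (hu2 : ∀ c, ∑ a, u a c = 0)
    (hv0 : ∃ a b, v a b ≠ 0) (S : Finset (OnePoint K))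
    (hS : ∀ a b, v a b ≠ 0 → a ∈ S ∧ b ∈ S) (hcard : S.card ^ 8 < Fintype.card K) :
    ∃ x : GL (Fin 2) K → k, ∀ a b, u a b = ∑ g, x g * v (g⁻¹ • a) (g⁻¹ • b) := by
  classical
  obtain ⟨x, hx⟩ := descend k (ι := OnePoint K × OnePoint K) (κ := GL (Fin 2) K)
    (fun p g => v (g⁻¹ • p.1) (g⁻¹ • p.2)) (fun p => u p.1 p.2) (by
    intro k₀ σ A' b' hA hb
    set v' : HH K := WithLp.toLp 2 (fun p => σ (A' p 1)) with hv'
    set u' : HH K := WithLp.toLp 2 (fun p => σ (b' p)) with hu'
    have hA1 : ∀ a b, ((A' (a, b) 1 : k₀) : k) = v a b := by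
      intro a b; rw [hA]; simp
    have hAg : ∀ (p : OnePoint K × OnePoint K) (g : GL (Fin 2) K),
        A' (g⁻¹ • p.1, g⁻¹ • p.2) 1 = A' p g := by
      intro p g
      apply Subtype.ext
      rw [hA1, hA]
    have hvC : v' ∈ CC K := by
      refine ⟨fun a b => ?_, fun c => ?_⟩
      · change σ (A' (b, a) 1) = - σ (A' (a, b) 1)
        rw [← map_neg]
        congr 1
        apply Subtype.ext
        rw [hA1]; push_cast; rw [hA1, hv1]
      · change ∑ a, σ (A' (a, c) 1) = 0
        rw [← map_sum, map_eq_zero]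
        apply Subtype.ext
        push_cast
        simp only [hA1]; exact hv2 c
    have huC : u' ∈ CC K := by
      refine ⟨fun a b => ?_, fun c => ?_⟩
      · change σ (b' (b, a)) = - σ (b' (a, b))
        rw [← map_neg]
        congr 1
        apply Subtype.ext
        rw [hb]; push_cast; rw [hb, hu1]
      · change ∑ a, σ (b' (a, c)) = 0
        rw [← map_sum, map_eq_zero]
        apply Subtype.ext
        push_cast
        simp only [hb]; exact hu2 c
    set L : Submodule ℂ (HH K) := Submodule.span ℂ (Set.range fun g : GL (Fin 2) K => act g v')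
      with hL
    have hLC : L ≤ CC K := by
      rw [hL, Submodule.span_le]
      rintro _ ⟨g, rfl⟩
      exact act_mem_CC g hvC
    have hLact : ∀ (g : GL (Fin 2) K), ∀ x ∈ L, act g x ∈ L := by
      intro g x hx
      have : L ≤ L.comap (act g).toLinearEquiv.toLinearMap := by
        rw [hL, Submodule.span_le]
        rintro _ ⟨h, rfl⟩
        apply Submodule.subset_span
        refine ⟨g * h, ?_⟩
        ext ⟨a, b⟩
        change act (g * h) v' (a, b) = act g (act h v') (a, b)
        rw [act_apply, act_apply, act_apply, mul_inv_rev, mul_smul, mul_smul]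
      exact this hx
    have hvL : v' ∈ L := by
      apply Submodule.subset_span
      refine ⟨1, ?_⟩
      ext ⟨a, b⟩
      change act 1 v' (a, b) = v' (a, b)
      rw [act_apply, inv_one, one_smul, one_smul]
    have hv'0 : v' ≠ 0 := by
      obtain ⟨a, b, hab⟩ := hv0
      intro h
      have h1 : v' (a, b) = 0 := by rw [h]; rfl
      change σ (A' (a, b) 1) = 0 at h1
      rw [map_eq_zero] at h1
      apply hab
      rw [← hA1, h1]; rfl
    have hS' : ∀ a b, v' (a, b) ≠ 0 → a ∈ S ∧ b ∈ S := by
      intro a b h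
      apply hS
      intro h1
      apply h
      change σ (A' (a, b) 1) = 0
      rw [map_eq_zero]
      apply Subtype.ext
      rw [hA1, h1]; rfl
    have huL : u' ∈ L := finite_level L hLC hLact v' hvL hv'0 S hS' hcard huC
    rw [hL, Submodule.mem_span_range_iff_exists_fun] at huL
    obtain ⟨c, hc⟩ := huL
    refine ⟨c, fun p => ?_⟩
    have h1 := congrArg (fun z : HH K => z p) hc
    change _ = σ (b' p) at h1
    rw [← h1]
    change (∑ g, c g • act g v').ofLp p = _
    rw [WithLp.ofLp_sum, Finset.sum_apply]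
    refine Finset.sum_congr rfl fun g _ => ?_
    rw [WithLp.ofLp_smul, Pi.smul_apply, smul_eq_mul]
    obtain ⟨a, b⟩ := p
    rw [act_apply]
    change c g * σ (A' (g⁻¹ • a, g⁻¹ • b) 1) = _
    rw [hAg (a, b) g])
  exact ⟨x, fun a b => hx (a, b)⟩

end Q22.SA
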