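import Pool.Agent.Q22.SA.Phi
import Pool.Agent.Q22.SA.FinK

set_option linter.unusedSectionVars false

open scoped TensorProduct OnePoint
open OnePoint Matrix

namespace Q22.SA

lemma col_eq {k : Type*} [Field k] {X Y : Type*} [Fintype Y] [DecidableEq Y] (j : Y → X)
    (hj : Function.Injective j) (f : X × X →₀ k)
    (hf : ∀ p q, f (p, q) ≠ 0 → (∃ a, j a = p) ∧ ∃ b, j b = q) (c : Y) :
    col k (j c) f = ∑ a, f (j a, j c) := by
  classical
  rw [col, Finsupp.linearCombination_apply]
  rw [Finsupp.sum_of_support_subset f (s := Finset.univ.image (fun ab : Y × Y => (j ab.1, j ab.2)))]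
  · rw [Finset.sum_image]
    · rw [Fintype.sum_prod_type]
      refine Finset.sum_congr rfl fun a _ => ?_
      simp only [smul_eq_mul, mul_ite, mul_one, mul_zero]
      rw [Finset.sum_eq_single c]
      · simp
      · intro b _ hb
        rw [if_neg]
        exact fun h => hb (hj h)
      · simp
    · rintro ⟨a, b⟩ _ ⟨a', b'⟩ _ h
      simp only [Prod.mk.injEq] at h
      rw [hj h.1, hj h.2]
  · rintro ⟨p, q⟩ hp
    rw [Finsupp.mem_support_iff] at hp
    obtain ⟨⟨a, rfl⟩, ⟨b, rfl⟩⟩ := hf p q hp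
    exact Finset.mem_image_of_mem (fun ab : Y × Y => (j ab.1, j ab.2)) (Finset.mem_univ (a, b))
  · intro i _
    simp

attribute [local irreducible] Phi rhoTT rr

lemma map_inj {K F : Type*} (f : K → F) (hf : Function.Injective f) :
    Function.Injective (OnePoint.map f) := Option.map_injective hf

set_option maxHeartbeats 4000000 in
theorem main (p : ℕ) [Fact p.Prime] (F : Type*) [Field F] [IsAlgClosed F] [Algebra (ZMod p) F]
    [Algebra.IsAlgebraic (ZMod p) F] (k : Type*) [Field k] [CharZero k]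
    (W : Submodule k (TT k F)) (hW : W ≤ Vm k F)
    (hWs : ∀ g : SL F, ∀ x ∈ W, rhoTT k F g x ∈ W) (hW0 : W ≠ ⊥) : W = Vm k F := by
  classical
  apply le_antisymm hW
  rw [Vm, Submodule.span_le]
  rintro _ ⟨y, z, hyz, rfl⟩
  obtain ⟨x, hxW, hx0⟩ := (Submodule.ne_bot_iff _).1 hW0
  have hxV := hW hxW
  set f := Phi k F x with hf
  have hf0 : f ≠ 0 := fun h => hx0 (Phi_injective (by rw [← hf, h, map_zero]))
  set S₀ : Finset (OnePoint F) := f.support.image (fun pr => pt pr.1) ∪
    f.support.image (fun pr => pt pr.2) with hS₀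
  have hfin : {c : F | (c : OnePoint F) ∈ S₀}.Finite := by
    apply Set.Finite.of_injOn (f := fun c : F => (c : OnePoint F)) (t := (S₀ : Set (OnePoint F)))
    · intro c hc; exact hc
    · exact (OnePoint.coe_injective).injOn
    · exact S₀.finite_toSet
  obtain ⟨A, hA⟩ := Infinite.exists_subset_card_eq F (S₀.card ^ 8 + 1)
  set T : Set F := {c : F | (c : OnePoint F) ∈ S₀} ∪ ({y, z} ∪ (A : Set F)) with hT
  have hTfin : T.Finite := hfin.union ((Set.toFinite _).union A.finite_toSet)
  have : Finite T := hTfin.to_subtype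
  set K : IntermediateField (ZMod p) F := IntermediateField.adjoin (ZMod p) T with hK
  have hTK : ∀ c ∈ T, c ∈ K := fun c hc => IntermediateField.subset_adjoin _ _ hc
  have : FiniteDimensional (ZMod p) K :=
    IntermediateField.finiteDimensional_adjoin (fun c _ => Algebra.IsIntegral.isIntegral c)
  have : Finite K := Module.finite_of_finite (ZMod p)
  let _ : Fintype K := Fintype.ofFinite K
  -- embedding of the points
  set ι : OnePoint K → OnePoint F := OnePoint.map (algebraMap K F) with hι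
  have hιinj : Function.Injective ι := map_inj _ (algebraMap K F).injective
  set j : OnePoint K → (SL F ⧸ Borel F) := fun a => jj (ι a) with hj
  have hjinj : Function.Injective j := jj.injective.comp hιinj
  have hjinf : j ∞ = jj ∞ := rfl
  have hjc : ∀ c : F, c ∈ T → ∃ a, j a = jj (c : OnePoint F) := by
    intro c hc
    exact ⟨((⟨c, hTK c hc⟩ : K) : OnePoint K), rfl⟩
  have hjp : ∀ q : SL F ⧸ Borel F, pt q ∈ S₀ → ∃ a, j a = q := by
    intro q hq
    have hq' : jj (pt q) = q := jj_eq rfl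
    generalize hb : pt q = b at hq hq'
    induction b using OnePoint.rec with
    | infty => exact ⟨∞, by rw [hjinf, hq']⟩
    | coe c =>
      obtain ⟨a, ha⟩ := hjc c (Or.inl hq)
      exact ⟨a, by rw [ha, hq']⟩
  -- lifting of the group elements
  have hlift : ∀ g : GL (Fin 2) K, ∃ h : SL F, ∀ a : OnePoint K, h • j a = j (g • a) := by
    intro g
    obtain ⟨h, hh⟩ := exists_lift (g.map (algebraMap K F))
    refine ⟨h, fun a => ?_⟩
    rw [hj]
    simp only
    rw [← jj_smul, hh, hι, OnePoint.map_smul]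
  choose h hh using hlift
  have hinv : ∀ (g : GL (Fin 2) K) (a : OnePoint K), (h g)⁻¹ • j a = j (g⁻¹ • a) := by
    intro g a
    rw [inv_smul_eq_iff, hh, smul_inv_smul]
  -- supports
  have hfS : ∀ p q, f (p, q) ≠ 0 → pt p ∈ S₀ ∧ pt q ∈ S₀ := by
    intro p q hpq
    have hm : (p, q) ∈ f.support := Finsupp.mem_support_iff.2 hpq
    exact ⟨Finset.mem_union_left _ (Finset.mem_image_of_mem (fun pr => pt pr.1) hm),
      Finset.mem_union_right _ (Finset.mem_image_of_mem (fun pr => pt pr.2) hm)⟩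
  have hfsupp : ∀ p q, f (p, q) ≠ 0 → (∃ a, j a = p) ∧ ∃ b, j b = q := by
    intro p q hpq
    exact ⟨hjp p (hfS p q hpq).1, hjp q (hfS p q hpq).2⟩
  set u := Phi k F (rr k F y z) with hu
  have hyT : y ∈ T := Or.inr (Or.inl (by simp))
  have hzT : z ∈ T := Or.inr (Or.inl (by simp))
  have hEv : ∀ c ∈ T, ∀ p, Ev k (c : OnePoint F) p ≠ 0 → ∃ a, j a = p := by
    intro c hc p hp
    rcases Ev_apply_ne _ _ hp with h' | h'
    · exact ⟨∞, by rw [h', hjinf]⟩
    · obtain ⟨a, ha⟩ := hjc c hc
      exact ⟨a, by rw [ha, h']⟩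
  have husupp : ∀ p q, u (p, q) ≠ 0 → (∃ a, j a = p) ∧ ∃ b, j b = q := by
    intro p q hpq
    rw [hu, Phi_rr] at hpq
    have hpq' := right_ne_zero_of_mul hpq
    by_cases h1 : Ev k (y : OnePoint F) p * Ev k (z : OnePoint F) q = 0
    · rw [h1, zero_sub, neg_ne_zero] at hpq'
      exact ⟨hEv z hzT p (left_ne_zero_of_mul hpq'), hEv y hyT q (right_ne_zero_of_mul hpq')⟩
    · exact ⟨hEv y hyT p (left_ne_zero_of_mul h1), hEv z hzT q (right_ne_zero_of_mul h1)⟩
  have huV : rr k F y z ∈ Vm k F := Submodule.subset_span ⟨y, z, hyz, rfl⟩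
  -- the finite level theorem
  obtain ⟨c, hc⟩ := finite_level_k k K (fun a b => f (j a, j b)) (fun a b => u (j a, j b))
    (fun a b => Phi_anti x hxV _ _)
    (fun c => by
      rw [← col_eq j hjinj f hfsupp c]
      exact col_Phi x hxV _)
    (fun a b => Phi_anti _ huV _ _)
    (fun c => by
      rw [← col_eq j hjinj u husupp c]
      exact col_Phi _ huV _)
    (by
      obtain ⟨⟨p, q⟩, hpq⟩ := Finsupp.ne_iff.1 hf0
      rw [Finsupp.zero_apply] at hpq
      obtain ⟨⟨a, rfl⟩, ⟨b, rfl⟩⟩ := hfsupp p q hpq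
      exact ⟨a, b, hpq⟩)
    (Finset.univ.filter (fun a => ι a ∈ S₀))
    (by
      intro a b hab
      have := hfS _ _ hab
      simp only [hj, pt_jj] at this
      simpa using this)
    (by
      have h1 : (Finset.univ.filter (fun a => ι a ∈ S₀)).card ≤ S₀.card := by
        apply Finset.card_le_card_of_injOn ι
        · intro a ha
          simpa using ha
        · exact hιinj.injOn
      have h2 : S₀.card ^ 8 + 1 ≤ Fintype.card K := by
        rw [← hA, ← Fintype.card_coe]
        apply Fintype.card_le_of_injective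
          (fun a : A => (⟨a.1, hTK a.1 (Or.inr (Or.inr a.2))⟩ : K))
        intro a b hab
        exact Subtype.ext (congrArg (fun t : K => (t : F)) hab)
      calc _ ≤ S₀.card ^ 8 := Nat.pow_le_pow_left h1 8
        _ < _ := h2)
  -- conclusion
  have hmem : ∑ g, c g • rhoTT k F (h g) x ∈ W :=
    W.sum_mem fun g _ => W.smul_mem _ (hWs _ _ hxW)
  have heq : ∑ g, c g • rhoTT k F (h g) x = rr k F y z := by
    apply Phi_injective
    ext ⟨p, q⟩
    rw [map_sum, Finsupp.finsetSum_apply]
    simp only [_root_.map_smul, Finsupp.smul_apply, Phi_rho, smul_eq_mul]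
    by_cases hpq : (∃ a, j a = p) ∧ ∃ b, j b = q
    · obtain ⟨⟨a, rfl⟩, ⟨b, rfl⟩⟩ := hpq
      simp only [hinv]
      exact (hc a b).symm
    · have h1 : u (p, q) = 0 := by
        by_contra h'
        exact hpq (husupp p q h')
      rw [← hu, h1]
      apply Finset.sum_eq_zero
      intro g _
      have h2 : f ((h g)⁻¹ • p, (h g)⁻¹ • q) = 0 := by
        by_contra h'
        obtain ⟨⟨a, ha⟩, ⟨b, hb⟩⟩ := hfsupp _ _ h'
        apply hpq
        exact ⟨⟨g • a, by rw [← hh, ha, smul_inv_smul]⟩, ⟨g • b, by rw [← hh, hb, smul_inv_smul]⟩⟩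
      rw [← hf, h2, mul_zero]
  rw [← heq]
  exact hmem

end Q22.SA
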