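import Pool.Agent.Q22.SA.Pt

set_option linter.unusedSectionVars false

open scoped TensorProduct OnePoint
open OnePoint Matrix

namespace Q22.SA

variable {k : Type*} [Field k] {F : Type*} [Field F] [DecidableEq F]

/-- `MM` as a space of finitely supported functions -/
noncomputable def toF : MM k F ≃ₗ[k] ((SL F ⧸ Borel F) →₀ k) := LinearEquiv.refl k _

lemma toF_rho (g : SL F) (m : MM k F) (p : SL F ⧸ Borel F) :
    toF (rhoM k F g m) p = toF m (g⁻¹ • p) := by
  change Finsupp.mapDomain (fun x : SL F ⧸ Borel F => g • x) (toF m) p = _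
  nth_rw 1 [← smul_inv_smul g p]
  exact Finsupp.mapDomain_apply (MulAction.injective g) _ _

lemma toF_rho_single (g : SL F) (x : SL F ⧸ Borel F) (r : k) :
    toF (rhoM k F g (toF.symm (Finsupp.single x r))) = Finsupp.single (g • x) r := by
  change Finsupp.mapDomain (fun x : SL F ⧸ Borel F => g • x) (Finsupp.single x r) = _
  exact Finsupp.mapDomain_single

/-- `[∞] - [a]` -/
noncomputable def Ev (k : Type*) [Field k] (a : OnePoint F) : (SL F ⧸ Borel F) →₀ k :=
  Finsupp.single (jj ∞) 1 - Finsupp.single (jj a) 1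

lemma toF_eta : toF (eta k F) = Finsupp.single (jj (∞ : OnePoint F)) (1 : k) -
    Finsupp.single (jj ((0 : F) : OnePoint F)) 1 := by
  have h1 : oneTr k F = toF.symm (Finsupp.single (jj (∞ : OnePoint F)) (1 : k)) := by
    rw [jj_infty]; rfl
  rw [eta, map_sub, h1, toF_rho_single, LinearEquiv.apply_symm_apply]
  congr 2
  have : ((sMat F : SL F) : SL F ⧸ Borel F) = jj ((0 : F) : OnePoint F) := by
    rw [jj_coe]
    congr 1
    ext i j
    change _ = ((!![1, (0 : F); 0, 1] * !![0, 1; -1, 0] : Matrix (Fin 2) (Fin 2) F)) i j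
    fin_cases i <;> fin_cases j <;> simp [sMat, Matrix.mul_apply, Fin.sum_univ_two]
  rw [← this, jj_infty]
  change ((sMat F * 1 : SL F) : SL F ⧸ Borel F) = _
  rw [mul_one]

lemma toF_rho_eta (g : SL F) : toF (rhoM k F g (eta k F)) =
    Ev k (SpecialLinearGroup.toGL g • ((0 : F) : OnePoint F)) -
      Ev k (SpecialLinearGroup.toGL g • (∞ : OnePoint F)) := by
  have h : eta k F = toF.symm (Finsupp.single (jj (∞ : OnePoint F)) (1 : k)) -
      toF.symm (Finsupp.single (jj ((0 : F) : OnePoint F)) 1) := by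
    rw [← map_sub, LinearEquiv.eq_symm_apply, toF_eta]
  rw [h, map_sub, map_sub, toF_rho_single, toF_rho_single, Ev, Ev, jj_smul, jj_smul]
  abel

lemma Ev_infty : Ev (F := F) k ∞ = 0 := by simp [Ev]

lemma eps00 (x : F) : (SpecialLinearGroup.toGL (eps F x) : GL (Fin 2) F) 0 0 = (1 : F) := rfl
lemma eps01 (x : F) : (SpecialLinearGroup.toGL (eps F x) : GL (Fin 2) F) 0 1 = x := rfl
lemma eps10 (x : F) : (SpecialLinearGroup.toGL (eps F x) : GL (Fin 2) F) 1 0 = (0 : F) := rfl
lemma eps11 (x : F) : (SpecialLinearGroup.toGL (eps F x) : GL (Fin 2) F) 1 1 = (1 : F) := rfl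

lemma toF_ee (x : F) : toF (ee k F x : MM k F) = Ev k (x : OnePoint F) := by
  change toF (rhoM k F (eps F x) (eta k F)) = _
  rw [toF_rho_eta]
  have e1 : SpecialLinearGroup.toGL (eps F x) • ((0 : F) : OnePoint F) = (x : OnePoint F) := by
    rw [smul_some_eq_ite, eps00, eps01, eps10, eps11]
    simp
  have e2 : SpecialLinearGroup.toGL (eps F x) • (∞ : OnePoint F) = ∞ := by
    rw [smul_infty_eq_ite, eps10]
    simp
  rw [e1, e2, Ev_infty, sub_zero]

/-- extension of `ee` to the projective line -/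
noncomputable def ee' (k : Type*) [Field k] (a : OnePoint F) : St k F :=
  a.elim (0 : St k F) (fun x => ee k F x)

lemma toF_ee' (a : OnePoint F) : toF (ee' k a : MM k F) = Ev k a := by
  induction a using OnePoint.rec with
  | infty =>
    rw [Ev_infty]
    change toF (0 : MM k F) = 0
    exact map_zero _
  | coe x => exact toF_ee x

lemma toF_rho_Ev (g : SL F) (a : OnePoint F) :
    toF (rhoM k F g (toF.symm (Ev k a))) = Ev k (SpecialLinearGroup.toGL g • a) -
      Ev k (SpecialLinearGroup.toGL g • (∞ : OnePoint F)) := by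
  rw [Ev, map_sub, map_sub, map_sub, toF_rho_single, toF_rho_single, Ev, Ev, jj_smul, jj_smul]
  abel

lemma rhoSt_ee' (g : SL F) (a : OnePoint F) :
    rhoSt k F g (ee' k a) = ee' k (SpecialLinearGroup.toGL g • a) -
      ee' k (SpecialLinearGroup.toGL g • (∞ : OnePoint F)) := by
  apply Subtype.ext
  apply toF.injective
  change toF (rhoM k F g (ee' k a : MM k F)) = _
  have h : (ee' k a : MM k F) = toF.symm (Ev k a) := by
    rw [LinearEquiv.eq_symm_apply, toF_ee']
  rw [h, toF_rho_Ev]
  rw [Submodule.coe_sub, map_sub, toF_ee', toF_ee']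

/-- extension of `rr` -/
noncomputable def rr' (k : Type*) [Field k] (a b : OnePoint F) : TT k F :=
  (1 / 2 : k) • (ten k F (ee' k a) (ee' k b) - ten k F (ee' k b) (ee' k a))

lemma ten_zero (a : St k F) : ten k F a 0 = 0 := TensorProduct.tmul_zero _ _
lemma zero_ten (a : St k F) : ten k F 0 a = 0 := TensorProduct.zero_tmul _ _
lemma ten_sub (a b c : St k F) : ten k F a (b - c) = ten k F a b - ten k F a c :=
  TensorProduct.tmul_sub _ _ _
lemma sub_ten (a b c : St k F) : ten k F (a - b) c = ten k F a c - ten k F b c :=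
  TensorProduct.sub_tmul _ _ _
lemma rhoTT_ten (g : SL F) (a b : St k F) :
    rhoTT k F g (ten k F a b) = ten k F (rhoSt k F g a) (rhoSt k F g b) := rfl

lemma TT_induction {P : TT k F → Prop} (x : TT k F) (h0 : P 0) (h1 : ∀ a b, P (ten k F a b))
    (h2 : ∀ x y, P x → P y → P (x + y)) : P x :=
  TensorProduct.induction_on (motive := P) x h0 h1 h2

lemma rr'_mem (a b : OnePoint F) : rr' k a b ∈ Vm k F := by
  induction a using OnePoint.rec with
  | infty =>
    have : rr' k (∞ : OnePoint F) b = 0 := by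
      have h : ee' k (∞ : OnePoint F) = 0 := rfl
      rw [rr', h, zero_ten, ten_zero, sub_zero, smul_zero]
    rw [this]; exact zero_mem _
  | coe x =>
    induction b using OnePoint.rec with
    | infty =>
      have : rr' k (x : OnePoint F) ∞ = 0 := by
        have h : ee' k (∞ : OnePoint F) = 0 := rfl
        rw [rr', h, zero_ten, ten_zero, sub_zero, smul_zero]
      rw [this]; exact zero_mem _
    | coe y =>
      by_cases hxy : x = y
      · subst hxy
        have : rr' k (x : OnePoint F) (x : OnePoint F) = 0 := by simp [rr']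
        rw [this]; exact zero_mem _
      · exact Submodule.subset_span ⟨x, y, hxy, rfl⟩

lemma rhoTT_rr (g : SL F) (a b : OnePoint F) :
    rhoTT k F g (rr' k a b) =
      rr' k (SpecialLinearGroup.toGL g • a) (SpecialLinearGroup.toGL g • b)
      - rr' k (SpecialLinearGroup.toGL g • a) (SpecialLinearGroup.toGL g • (∞ : OnePoint F))
      - rr' k (SpecialLinearGroup.toGL g • (∞ : OnePoint F)) (SpecialLinearGroup.toGL g • b) := by
  simp only [rr', _root_.map_smul, map_sub, rhoTT_ten, rhoSt_ee', sub_ten, ten_sub]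
  module

lemma Vm_stable (g : SL F) : Vm k F ≤ (Vm k F).comap (rhoTT k F g) := by
  rw [Vm, Submodule.span_le]
  rintro _ ⟨x, y, -, rfl⟩
  change rhoTT k F g (rr' k (x : OnePoint F) (y : OnePoint F)) ∈ Vm k F
  rw [rhoTT_rr]
  exact sub_mem (sub_mem (rr'_mem _ _) (rr'_mem _ _)) (rr'_mem _ _)

/-- elements of `St ⊗ St` as functions on pairs of cosets -/
noncomputable def Phi0 (k : Type*) [Field k] (F : Type*) [Field F] [DecidableEq F] :
    St k F ⊗[k] St k F →ₗ[k] ((SL F ⧸ Borel F) × (SL F ⧸ Borel F) →₀ k) :=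
  (finsuppTensorFinsupp' k (SL F ⧸ Borel F) (SL F ⧸ Borel F)).toLinearMap ∘ₗ
    TensorProduct.map (toF.toLinearMap ∘ₗ (St k F).subtype) (toF.toLinearMap ∘ₗ (St k F).subtype)

lemma Phi0_injective : Function.Injective (Phi0 k F) := by
  apply (finsuppTensorFinsupp' k (SL F ⧸ Borel F) (SL F ⧸ Borel F)).injective.comp
  apply TensorProduct.map_injective_of_flat_flat
  · exact toF.injective.comp (St k F).injective_subtype
  · exact toF.injective.comp (St k F).injective_subtype

lemma Phi0_tmul (a b : St k F) : Phi0 k F (a ⊗ₜ b) =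
    finsuppTensorFinsupp' k (SL F ⧸ Borel F) (SL F ⧸ Borel F)
      ((toF (a : MM k F)) ⊗ₜ (toF (b : MM k F))) := by
  simp only [Phi0, LinearMap.comp_apply, TensorProduct.map_tmul]
  rfl

/-- elements of `St ⊗ St` as functions on pairs of cosets -/
noncomputable def Phi (k : Type*) [Field k] (F : Type*) [Field F] [DecidableEq F] :
    TT k F →ₗ[k] ((SL F ⧸ Borel F) × (SL F ⧸ Borel F) →₀ k) := Phi0 k F

lemma Phi_injective : Function.Injective (Phi k F) := Phi0_injective

lemma Phi_tmul (a b : St k F) (p q : SL F ⧸ Borel F) :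
    Phi k F (ten k F a b) (p, q) = toF (a : MM k F) p * toF (b : MM k F) q := by
  change Phi0 k F (a ⊗ₜ b) (p, q) = _
  rw [Phi0_tmul]
  exact finsuppTensorFinsupp'_apply_apply _ _ _ _ _ _ _

lemma Phi_rho (g : SL F) (x : TT k F) (p q : SL F ⧸ Borel F) :
    Phi k F (rhoTT k F g x) (p, q) = Phi k F x (g⁻¹ • p, g⁻¹ • q) := by
  induction x using TT_induction with
  | h0 => simp
  | h1 a b =>
    rw [rhoTT_ten, Phi_tmul, Phi_tmul]
    change toF (rhoM k F g (a : MM k F)) p * toF (rhoM k F g (b : MM k F)) q = _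
    rw [toF_rho, toF_rho]
  | h2 x y hx hy =>
    rw [map_add, map_add, map_add, Finsupp.add_apply, Finsupp.add_apply, hx, hy]

lemma Phi_rr (x y : F) (p q : SL F ⧸ Borel F) :
    Phi k F (rr k F x y) (p, q) = (1 / 2 : k) * (Ev k (x : OnePoint F) p * Ev k (y : OnePoint F) q
      - Ev k (y : OnePoint F) p * Ev k (x : OnePoint F) q) := by
  rw [rr, _root_.map_smul, map_sub, Finsupp.smul_apply, Finsupp.sub_apply, Phi_tmul, Phi_tmul, toF_ee,
    toF_ee, smul_eq_mul]

lemma Phi_anti (x : TT k F) (hx : x ∈ Vm k F) (p q : SL F ⧸ Borel F) :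
    Phi k F x (q, p) = - Phi k F x (p, q) := by
  rw [Vm] at hx
  induction hx using Submodule.span_induction with
  | mem x h =>
    obtain ⟨a, b, -, rfl⟩ := h
    rw [Phi_rr, Phi_rr]; ring
  | zero => simp
  | add x y _ _ h1 h2 => rw [map_add, Finsupp.add_apply, Finsupp.add_apply, h1, h2]; ring
  | smul r x _ h => rw [_root_.map_smul, Finsupp.smul_apply, Finsupp.smul_apply, h, smul_neg]

open Classical in
/-- column sums -/
noncomputable def col (k : Type*) [Field k] {X : Type*} (q : X) : (X × X →₀ k) →ₗ[k] k :=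
  Finsupp.linearCombination k (fun pr : X × X => if pr.2 = q then (1 : k) else 0)

lemma Ev_sum (a : OnePoint F) : (Ev k a).sum (fun _ r => r) = 0 := by
  classical
  rw [Ev, Finsupp.sum_sub_index (by intros; rfl), Finsupp.sum_single_index rfl,
    Finsupp.sum_single_index rfl, sub_self]

lemma col_tmul {X : Type*} (f g : X →₀ k) (q : X) :
    col k q (finsuppTensorFinsupp' k X X (f ⊗ₜ g)) = (f.sum fun _ r => r) * g q := by
  classical
  induction f using Finsupp.induction_linear with
  | zero => simp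
  | add f f' h1 h2 =>
    rw [TensorProduct.add_tmul, map_add, map_add, h1, h2, Finsupp.sum_add_index' (by simp)
      (by intros; rfl), add_mul]
  | single p r =>
    induction g using Finsupp.induction_linear with
    | zero => simp
    | add g g' h1 h2 =>
      rw [TensorProduct.tmul_add, map_add, map_add, h1, h2, Finsupp.add_apply, mul_add]
    | single p' r' =>
      rw [finsuppTensorFinsupp'_single_tmul_single, col, Finsupp.linearCombination_single,
        Finsupp.sum_single_index rfl, Finsupp.single_apply]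
      split_ifs <;> simp

lemma col_Phi (x : TT k F) (hx : x ∈ Vm k F) (q : SL F ⧸ Borel F) :
    col k q (Phi k F x) = 0 := by
  rw [Vm] at hx
  induction hx using Submodule.span_induction with
  | mem x h =>
    obtain ⟨a, b, -, rfl⟩ := h
    have key : ∀ a b : F, col k q (Phi k F (ten k F (ee k F a) (ee k F b))) = 0 := by
      intro a b
      change col k q (Phi0 k F (ee k F a ⊗ₜ ee k F b)) = 0
      rw [Phi0_tmul, col_tmul, toF_ee, Ev_sum, zero_mul]
    rw [rr, _root_.map_smul, map_sub, _root_.map_smul, map_sub, key, key]; simp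
  | zero => simp
  | add x y _ _ h1 h2 => rw [map_add, map_add, h1, h2, add_zero]
  | smul r x _ h => rw [_root_.map_smul, _root_.map_smul, h, smul_zero]

lemma Ev_apply_ne (a : OnePoint F) (p : SL F ⧸ Borel F) (h : Ev k a p ≠ 0) :
    p = jj ∞ ∨ p = jj a := by
  classical
  by_contra hc
  push Not at hc
  apply h
  rw [Ev, Finsupp.sub_apply, Finsupp.single_apply, Finsupp.single_apply, if_neg (Ne.symm hc.1),
    if_neg (Ne.symm hc.2), sub_zero]

lemma rr_ne_zero [CharZero k] : rr k F 0 1 ≠ 0 := by
  classical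
  intro h
  have h1 : Phi k F (rr k F 0 1) (jj ((0 : F) : OnePoint F), jj ((1 : F) : OnePoint F)) = 0 := by
    rw [h]; simp
  rw [Phi_rr, Ev, Ev] at h1
  simp [Finsupp.single_apply] at h1

end Q22.SA
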