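import Pool.Agent.Q22.SA.Defs

open scoped TensorProduct OnePoint
open OnePoint Matrix

set_option linter.unusedSectionVars false

namespace Q22.SA

variable {F : Type*} [Field F] [DecidableEq F]

lemma smul_congr (g h : GL (Fin 2) F) (μ : F) (hμ : μ ≠ 0) (hgh : ∀ i j, h i j = μ * g i j)
    (a : OnePoint F) : h • a = g • a := by
  induction a using OnePoint.rec with
  | infty =>
    rw [smul_infty_eq_ite, smul_infty_eq_ite, hgh, hgh]
    by_cases h0 : g 1 0 = 0
    · simp [h0]
    · rw [if_neg (mul_ne_zero hμ h0), if_neg h0, mul_div_mul_left _ _ hμ]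
  | coe x =>
    rw [smul_some_eq_ite, smul_some_eq_ite, hgh, hgh, hgh, hgh]
    have e1 : μ * g 1 0 * x + μ * g 1 1 = μ * (g 1 0 * x + g 1 1) := by ring
    have e2 : μ * g 0 0 * x + μ * g 0 1 = μ * (g 0 0 * x + g 0 1) := by ring
    rw [e1, e2]
    by_cases h0 : g 1 0 * x + g 1 1 = 0
    · simp [h0]
    · rw [if_neg (mul_ne_zero hμ h0), if_neg h0, mul_div_mul_left _ _ hμ]

/-- the point of the projective line corresponding to a coset -/
noncomputable def pt (x : SL F ⧸ Borel F) : OnePoint F :=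
  Quotient.liftOn' x (fun g => SpecialLinearGroup.toGL g • (∞ : OnePoint F)) (by
    intro g h hgh
    rw [QuotientGroup.leftRel_apply] at hgh
    have h1 : SpecialLinearGroup.toGL (g⁻¹ * h) • (∞ : OnePoint F) = ∞ := by
      rw [smul_infty_eq_self_iff]
      exact hgh
    rw [map_mul, mul_smul, map_inv, inv_smul_eq_iff] at h1
    exact h1.symm)

lemma pt_mk (g : SL F) : pt (g : SL F ⧸ Borel F) = SpecialLinearGroup.toGL g • (∞ : OnePoint F) :=
  rfl

lemma pt_smul (g : SL F) (x : SL F ⧸ Borel F) :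
    pt (g • x) = SpecialLinearGroup.toGL g • pt x := by
  obtain ⟨h, rfl⟩ := QuotientGroup.mk_surjective x
  have : g • (h : SL F ⧸ Borel F) = ((g * h : SL F) : SL F ⧸ Borel F) := rfl
  rw [this, pt_mk, pt_mk, map_mul, mul_smul]

lemma toGL_entry (g : SL F) (i j : Fin 2) :
    (SpecialLinearGroup.toGL g : GL (Fin 2) F) i j = (g : Matrix (Fin 2) (Fin 2) F) i j := rfl

lemma pt_injective : Function.Injective (pt (F := F)) := by
  intro x y hxy
  obtain ⟨g, rfl⟩ := QuotientGroup.mk_surjective x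
  obtain ⟨h, rfl⟩ := QuotientGroup.mk_surjective y
  rw [pt_mk, pt_mk] at hxy
  rw [QuotientGroup.eq]
  change (g⁻¹ * h : SL F) 1 0 = 0
  have h1 : SpecialLinearGroup.toGL (g⁻¹ * h) • (∞ : OnePoint F) = ∞ := by
    rw [map_mul, mul_smul, ← hxy, map_inv, inv_smul_smul]
  rw [smul_infty_eq_self_iff] at h1
  exact h1

lemma pt_eps (x : F) : pt ((eps F x * sMat F : SL F) : SL F ⧸ Borel F) = (x : OnePoint F) := by
  have e10 : (SpecialLinearGroup.toGL (eps F x * sMat F) : GL (Fin 2) F) 1 0 = (-1 : F) := by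
    change ((!![1, x; 0, 1] * !![0, 1; -1, 0] : Matrix (Fin 2) (Fin 2) F)) 1 0 = -1
    simp [Matrix.mul_apply, Fin.sum_univ_two]
  have e00 : (SpecialLinearGroup.toGL (eps F x * sMat F) : GL (Fin 2) F) 0 0 = (-x : F) := by
    change ((!![1, x; 0, 1] * !![0, 1; -1, 0] : Matrix (Fin 2) (Fin 2) F)) 0 0 = -x
    simp [Matrix.mul_apply, Fin.sum_univ_two]
  rw [pt_mk, smul_infty_eq_ite, e10, e00]
  simp

lemma pt_one : pt ((1 : SL F) : SL F ⧸ Borel F) = (∞ : OnePoint F) := by
  rw [pt_mk, map_one, one_smul]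

lemma pt_surjective : Function.Surjective (pt (F := F)) := by
  intro a
  induction a using OnePoint.rec with
  | infty => exact ⟨_, pt_one⟩
  | coe x => exact ⟨_, pt_eps x⟩

/-- the bijection of the projective line with `G / B` -/
noncomputable def jj : OnePoint F ≃ (SL F ⧸ Borel F) :=
  (Equiv.ofBijective pt ⟨pt_injective, pt_surjective⟩).symm

lemma jj_eq {a : OnePoint F} {x : SL F ⧸ Borel F} (h : pt x = a) : jj a = x := by
  rw [jj, Equiv.symm_apply_eq]; exact h.symm

lemma pt_jj (a : OnePoint F) : pt (jj a) = a :=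
  (Equiv.ofBijective pt ⟨pt_injective, pt_surjective⟩).apply_symm_apply a

lemma jj_smul (g : SL F) (a : OnePoint F) :
    jj (SpecialLinearGroup.toGL g • a) = g • jj a := by
  apply jj_eq
  rw [pt_smul, pt_jj]

lemma jj_infty : jj (∞ : OnePoint F) = ((1 : SL F) : SL F ⧸ Borel F) := jj_eq pt_one

lemma jj_coe (x : F) :
    jj (x : OnePoint F) = ((eps F x * sMat F : SL F) : SL F ⧸ Borel F) := jj_eq (pt_eps x)

/-- lifting of Moebius transformations over a subfield -/
lemma exists_lift [IsAlgClosed F] (g : GL (Fin 2) F) :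
    ∃ h : SL F, ∀ a : OnePoint F, SpecialLinearGroup.toGL h • a = g • a := by
  have hdet : (g : Matrix (Fin 2) (Fin 2) F).det ≠ 0 := g.det_ne_zero
  obtain ⟨l, hl⟩ := IsAlgClosed.exists_pow_nat_eq (g : Matrix (Fin 2) (Fin 2) F).det
    (n := 2) (by norm_num)
  have hl0 : l ≠ 0 := by
    rintro rfl
    apply hdet; rw [← hl]; simp
  refine ⟨⟨l⁻¹ • (g : Matrix (Fin 2) (Fin 2) F), ?_⟩, fun a => ?_⟩
  · rw [Matrix.det_smul, ← hl, Fintype.card_fin]
    field_simp
  · apply smul_congr _ _ l⁻¹ (inv_ne_zero hl0)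
    intro i j
    rfl

end Q22.SA
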